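import Pool.Agent.P.MP_5a22e6_an.General

set_option autoImplicit false

open scoped InnerProductSpace ComplexConjugate
open Filter Topology

namespace Pool.Agent.P.MP_5a22e6_an

variable {G : Type} [Group G]
variable {K : Type} [NormedAddCommGroup K] [InnerProductSpace ℂ K] [CompleteSpace K]

/-- A closed algebra with a projection in its commutant. -/
structure Setup (E : NonUnitalStarSubalgebra ℂ (K →L[ℂ] K)) (P : K →L[ℂ] K) : Prop where
  closed : IsClosed (E : Set (K →L[ℂ] K))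
  sa : star P = P
  idem : P * P = P
  comm : ∀ x ∈ E, P * x = x * P

variable {E : NonUnitalStarSubalgebra ℂ (K →L[ℂ] K)} {P : K →L[ℂ] K}

theorem Setup.mul (hS : Setup E P) {x : K →L[ℂ] K} (hx : x ∈ E) (y : K →L[ℂ] K) :
    P * (x * y) = (P * x) * (P * y) := by
  calc P * (x * y) = (P * P) * x * y := by rw [hS.idem, mul_assoc]
    _ = P * (P * x) * y := by simp only [mul_assoc]
    _ = P * (x * P) * y := by rw [hS.comm x hx]
    _ = _ := by simp only [mul_assoc]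

theorem Setup.star_mul (hS : Setup E P) {x : K →L[ℂ] K} (hx : x ∈ E) :
    star (P * x) = P * star x := by
  rw [hS.comm x hx, StarMul.star_mul, hS.sa]

theorem Setup.norm_le (hS : Setup E P) : ‖P‖ ≤ 1 := by
  have h := CStarRing.norm_star_mul_self (x := P)
  rw [hS.sa, hS.idem] at h
  nlinarith [norm_nonneg P]

theorem IsRep.cut {V : G → K →L[ℂ] K} (hV : IsRep V) (hS : Setup E P) (hVE : ∀ g, V g ∈ E) :
    IsRep (fun g => P * V g) where
  mul g h := by rw [hV.mul, hS.mul (hVE g)]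
  star g := by rw [hS.star_mul (hVE g), hV.star]

/-- The preimage in `E` of the algebra generated by the cut-down representation. -/
noncomputable def pre (hS : Setup E P) {V : G → K →L[ℂ] K} (hV : IsRep V) (hVE : ∀ g, V g ∈ E) :
    NonUnitalStarSubalgebra ℂ (K →L[ℂ] K) where
  carrier := {x | x ∈ E ∧ P * x ∈ (hV.cut hS hVE).alg}
  add_mem' := fun ha hb => ⟨add_mem ha.1 hb.1, by rw [mul_add]; exact add_mem ha.2 hb.2⟩
  zero_mem' := ⟨zero_mem _, by rw [mul_zero]; exact zero_mem _⟩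
  smul_mem' := fun c _ hx => ⟨SMulMemClass.smul_mem c hx.1, by
    rw [mul_smul_comm]; exact SMulMemClass.smul_mem c hx.2⟩
  mul_mem' := fun ha hb => ⟨mul_mem ha.1 hb.1, by rw [hS.mul ha.1]; exact mul_mem ha.2 hb.2⟩
  star_mem' := fun ha => ⟨star_mem ha.1, by rw [← hS.star_mul ha.1]; exact star_mem ha.2⟩

theorem mem_pre {hS : Setup E P} {V : G → K →L[ℂ] K} {hV : IsRep V} {hVE : ∀ g, V g ∈ E}
    {x : K →L[ℂ] K} : x ∈ pre hS hV hVE ↔ x ∈ E ∧ P * x ∈ (hV.cut hS hVE).alg := Iff.rfl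

theorem pre_closed (hS : Setup E P) {V : G → K →L[ℂ] K} (hV : IsRep V) (hVE : ∀ g, V g ∈ E) :
    IsClosed (pre hS hV hVE : Set (K →L[ℂ] K)) :=
  hS.closed.inter (IsClosed.preimage (f := fun x => P * x) (by fun_prop) gen_closed)

/-- Compression by `P` as a star homomorphism. -/
noncomputable def qHom (hS : Setup E P) (D : NonUnitalStarSubalgebra ℂ (K →L[ℂ] K))
    (hD : D ≤ E) : D →⋆ₙₐ[ℂ] (K →L[ℂ] K) where
  toFun x := P * x
  map_smul' c x := by simp
  map_zero' := by simp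
  map_add' x y := by simp [mul_add]
  map_mul' x y := by
    rw [MulMemClass.coe_mul]
    exact hS.mul (hD x.2) _
  map_star' x := by
    rw [StarMemClass.coe_star]
    exact (hS.star_mul (hD x.2)).symm

theorem Setup.lift (hS : Setup E P) {x : K →L[ℂ] K} (hx : x ∈ E) :
    ∃ z ∈ E, P * z = P * x ∧ ‖z‖ ≤ 2 * ‖P * x‖ := by
  have := hS.closed
  obtain ⟨z, h1, h2⟩ := lift_norm (qHom hS E le_rfl) ⟨x, hx⟩
  exact ⟨z, z.2, h1, h2⟩

theorem near (hS : Setup E P) {V V' : G → K →L[ℂ] K} (hV : IsRep V) (hV' : IsRep V')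
    (hVE : ∀ g, V g ∈ E) (hV'E : ∀ g, V' g ∈ E) (W : K →L[ℂ] K) (hW1 : ‖W‖ ≤ 1) (ε : ℝ)
    (hε : 0 < ε) (hε1 : ε ≤ 1) (hW : ‖W - 1‖ ≤ ε)
    (hWV : ∀ g, W * (P * V g) * star W = P * V' g) (x : K →L[ℂ] K) (hx : x ∈ pre hS hV hVE)
    (hx1 : ‖x‖ ≤ 1) : ∃ y ∈ pre hS hV' hV'E, ‖y‖ ≤ 1 ∧ ‖x - y‖ ≤ 20 * ε := by
  obtain ⟨hxE, hxA⟩ := hx
  obtain ⟨a, ha, hd⟩ := Metric.mem_closure_iff.mp (mem_gen.mp hxA) ε hε
  rw [dist_eq_norm] at hd
  have key : ∃ z0 ∈ E, P * z0 = W * a * star W ∧ W * a * star W ∈ (hV'.cut hS hV'E).alg := by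
    simp only [SetLike.mem_coe] at ha
    clear hd
    induction ha using Submodule.span_induction with
    | mem y hy =>
      obtain ⟨g, rfl⟩ := hy
      refine ⟨V' g, hV'E g, (hWV g).symm, ?_⟩
      show W * (P * V g) * star W ∈ _
      rw [hWV g]
      exact subset_gen ⟨g, rfl⟩
    | zero => exact ⟨0, zero_mem _, by simp, by simp⟩
    | add y z _ _ h1 h2 =>
      obtain ⟨z1, m1, e1, a1⟩ := h1
      obtain ⟨z2, m2, e2, a2⟩ := h2
      refine ⟨z1 + z2, add_mem m1 m2, by rw [mul_add, e1, e2, mul_add, add_mul], ?_⟩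
      rw [mul_add, add_mul]
      exact add_mem a1 a2
    | smul c y _ h1 =>
      obtain ⟨z1, m1, e1, a1⟩ := h1
      refine ⟨c • z1, SMulMemClass.smul_mem c m1,
        by rw [mul_smul_comm, e1, mul_smul_comm, smul_mul_assoc], ?_⟩
      rw [mul_smul_comm, smul_mul_assoc]
      exact SMulMemClass.smul_mem c a1
  obtain ⟨z0, m0, e0, a0⟩ := key
  have hPx : ‖P * x‖ ≤ 1 := by
    have := norm_mul_le P x
    nlinarith [hS.norm_le, norm_nonneg P, norm_nonneg x]
  have ha2 : ‖a‖ ≤ 2 := by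
    have := norm_sub_le (P * x) (P * x - a)
    rw [sub_sub_cancel] at this
    linarith
  have hWs : ‖star W - 1‖ ≤ ε := by
    rw [← star_one (K →L[ℂ] K), ← star_sub, norm_star]; exact hW
  have h4 : ‖a - W * a * star W‖ ≤ 4 * ε := by
    have e : a - W * a * star W = -((W - 1) * a) - W * a * (star W - 1) := by noncomm_ring
    rw [e]
    have n1 := norm_sub_le (-((W - 1) * a)) (W * a * (star W - 1))
    rw [norm_neg] at n1
    have n2 : ‖(W - 1) * a‖ ≤ ε * 2 :=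
      (norm_mul_le _ _).trans (mul_le_mul hW ha2 (norm_nonneg _) hε.le)
    have n3 : ‖W * a‖ ≤ 1 * 2 :=
      (norm_mul_le _ _).trans (mul_le_mul hW1 ha2 (norm_nonneg _) zero_le_one)
    have n4 : ‖W * a * (star W - 1)‖ ≤ (1 * 2) * ε :=
      (norm_mul_le _ _).trans (mul_le_mul n3 hWs (norm_nonneg _) (by norm_num))
    linarith
  have h5 : ‖P * (x - z0)‖ ≤ 5 * ε := by
    have e : P * (x - z0) = (P * x - a) + (a - W * a * star W) := by
      rw [mul_sub, e0]; abel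
    rw [e]
    have := norm_add_le (P * x - a) (a - W * a * star W)
    linarith
  obtain ⟨z, mz, ez, nz⟩ := hS.lift (sub_mem hxE m0)
  have hz : ‖z‖ ≤ 10 * ε := by linarith
  have hy0 : x - z ∈ pre hS hV' hV'E := by
    refine ⟨sub_mem hxE mz, ?_⟩
    have : P * (x - z) = W * a * star W := by
      rw [mul_sub, ez, mul_sub, e0]; abel
    rw [this]; exact a0
  have ny0 : ‖x - z‖ ≤ 1 + 10 * ε := by
    have := norm_sub_le x z
    linarith
  have hpos : 0 < 1 + 10 * ε := by linarith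
  refine ⟨(((1 + 10 * ε)⁻¹ : ℝ) : ℂ) • (x - z), SMulMemClass.smul_mem _ hy0, ?_, ?_⟩
  · rw [norm_smul, Complex.norm_real, Real.norm_eq_abs, abs_of_pos (inv_pos.mpr hpos),
      inv_mul_le_iff₀ hpos]
    linarith
  · have e : x - (((1 + 10 * ε)⁻¹ : ℝ) : ℂ) • (x - z)
        = z + (((1 - (1 + 10 * ε)⁻¹ : ℝ)) : ℂ) • (x - z) := by
      push_cast
      module
    rw [e]
    have n1 := norm_add_le z ((((1 - (1 + 10 * ε)⁻¹ : ℝ)) : ℂ) • (x - z))
    have hc : 0 ≤ 1 - (1 + 10 * ε)⁻¹ := by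
      rw [sub_nonneg]; exact inv_le_one_of_one_le₀ (by linarith)
    rw [norm_smul, Complex.norm_real, Real.norm_eq_abs, abs_of_nonneg hc] at n1
    have n2 : (1 - (1 + 10 * ε)⁻¹) * ‖x - z‖ ≤ (1 - (1 + 10 * ε)⁻¹) * (1 + 10 * ε) :=
      mul_le_mul_of_nonneg_left ny0 hc
    have n3 : (1 - (1 + 10 * ε)⁻¹) * (1 + 10 * ε) = 10 * ε := by
      field_simp; ring
    linarith

theorem hausdorff_le (hS : Setup E P) {V V' : G → K →L[ℂ] K} (hV : IsRep V) (hV' : IsRep V')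
    (hVE : ∀ g, V g ∈ E) (hV'E : ∀ g, V' g ∈ E) (W : K →L[ℂ] K) (hWu : star W * W = 1)
    (ε : ℝ) (hε : 0 < ε) (hε1 : ε ≤ 1) (hW : ‖W - 1‖ ≤ ε)
    (hWV : ∀ g, W * (P * V g) * star W = P * V' g) :
    Metric.hausdorffDist {x : K →L[ℂ] K | x ∈ pre hS hV hVE ∧ ‖x‖ ≤ 1}
      {x : K →L[ℂ] K | x ∈ pre hS hV' hV'E ∧ ‖x‖ ≤ 1} ≤ 20 * ε := by
  have hW1 : ‖W‖ ≤ 1 := by
    have h := CStarRing.norm_star_mul_self (x := W)
    rw [hWu] at h
    have h1 : ‖(1 : K →L[ℂ] K)‖ ≤ 1 := ContinuousLinearMap.norm_id_le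
    nlinarith [norm_nonneg W]
  apply Metric.hausdorffDist_le_of_mem_dist (by linarith)
  · rintro x ⟨hx, hx1⟩
    obtain ⟨y, hy, hy1, hd⟩ := near hS hV hV' hVE hV'E W hW1 ε hε hε1 hW hWV x hx hx1
    exact ⟨y, ⟨hy, hy1⟩, by rwa [dist_eq_norm]⟩
  · rintro x ⟨hx, hx1⟩
    have hWs : ‖star W - 1‖ ≤ ε := by
      rw [← star_one (K →L[ℂ] K), ← star_sub, norm_star]; exact hW
    obtain ⟨y, hy, hy1, hd⟩ := near hS hV' hV hV'E hVE (star W) (by rwa [norm_star]) ε hε hε1 hWs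
      (fun g => by
        rw [← hWV g, star_star]
        calc star W * (W * (P * V g) * star W) * W
            = (star W * W) * (P * V g) * (star W * W) := by simp only [mul_assoc]
          _ = _ := by rw [hWu, one_mul, mul_one]) x hx hx1
    exact ⟨y, ⟨hy, hy1⟩, by rwa [dist_eq_norm]⟩

/-- Two isometries with orthogonal ranges. -/
structure Cuntz (S T : K →L[ℂ] K) : Prop where
  ss : star S * S = 1
  tt : star T * T = 1
  st : star S * T = 0

theorem Cuntz.ts {S T : K →L[ℂ] K} (h : Cuntz S T) : star T * S = 0 := by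
  have := congrArg star h.st
  simpa using this

/-- The doubling endomorphism. -/
noncomputable def Cuntz.psi {S T : K →L[ℂ] K} (h : Cuntz S T) :
    (K →L[ℂ] K) →⋆ₙₐ[ℂ] (K →L[ℂ] K) where
  toFun x := S * x * star S + T * x * star T
  map_smul' c x := by simp
  map_zero' := by simp
  map_add' x y := by noncomm_ring
  map_mul' x y := by
    have e : (S * x * star S + T * x * star T) * (S * y * star S + T * y * star T)
        = S * x * (star S * S) * y * star S + S * x * (star S * T) * y * star T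
          + T * x * (star T * S) * y * star S + T * x * (star T * T) * y * star T := by
      noncomm_ring
    rw [e, h.ss, h.tt, h.st, h.ts]
    noncomm_ring
  map_star' x := by simp [mul_assoc]

variable [DecidableEq G]

theorem ker_map (hS : Setup E P) {V V' : G → K →L[ℂ] K} (hV : IsRep V) (hV' : IsRep V')
    (hVE : ∀ g, V g ∈ E) (hV'E : ∀ g, V' g ∈ E) {S T : K →L[ℂ] K} (hC : Cuntz S T)
    (hSE : S ∈ E) (hTE : T ∈ E) {ζ : K} (hζ : P ζ = ζ)
    (tr' : IsTr (fun g => P * V' g) ζ 1) (tot' : Tot (fun g => P * V' g))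
    (Φ : pre hS hV hVE ≃⋆ₐ[ℂ] pre hS hV' hV'E) (j : pre hS hV hVE)
    (hj : P * (j : K →L[ℂ] K) = 0) : P * (Φ j : K →L[ℂ] K) = 0 := by
  have := pre_closed hS hV hVE
  have := pre_closed hS hV' hV'E
  let t : pre hS hV hVE → ℝ := fun x => ‖(Φ x : K →L[ℂ] K) ζ‖ ^ 2
  have hPz : ∀ y ∈ E, (P * y) ζ = y ζ := by
    intro y hy
    rw [hS.comm y hy, mul_apply_eq_comp, hζ]
  have t_star : ∀ x, t (star x) = t x := by
    intro x
    simp only [t, map_star, StarMemClass.coe_star]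
    have h := norm_star_apply (hV'.cut hS hV'E) tr' (Φ x).2.2
    rw [hS.star_mul (Φ x).2.1, hPz _ (star_mem (Φ x).2.1), hPz _ (Φ x).2.1] at h
    rw [h]
  have t_eq : ∀ x, ((t x : ℝ) : ℂ) = ⟪ζ, (Φ (star x * x) : K →L[ℂ] K) ζ⟫_ℂ := by
    intro x
    rw [map_mul, map_star, MulMemClass.coe_mul, StarMemClass.coe_star, inner_star_mul,
      inner_self_eq_norm_sq_to_K]
    simp [t]
  have t_le : ∀ x, t x ≤ (‖x‖ * ‖ζ‖) ^ 2 := by
    intro x
    have h1 := (Φ x : K →L[ℂ] K).le_opNorm ζ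
    have h2 : ‖(Φ x : K →L[ℂ] K)‖ = ‖x‖ := StarAlgEquiv.norm_map Φ x
    rw [h2] at h1
    exact pow_le_pow_left₀ (norm_nonneg _) h1 2
  have mk : ∀ y ∈ E, P * y = 0 → y ∈ pre hS hV hVE := by
    intro y hy h0
    exact ⟨hy, by rw [h0]; exact zero_mem _⟩
  have iso : ∀ (R : K →L[ℂ] K) (hR : R ∈ E) (_ : star R * R = 1) (x y : pre hS hV hVE),
      (y : K →L[ℂ] K) = x * star R → t y = t x := by
    intro R hR hRR x y hy
    rw [← t_star y, ← t_star x]
    have : star (star y) * star y = star (star x) * star x := by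
      apply Subtype.ext
      simp only [MulMemClass.coe_mul, StarMemClass.coe_star, star_star, hy, star_mul]
      calc (x : K →L[ℂ] K) * star R * (R * star (x : K →L[ℂ] K))
          = x * (star R * R) * star (x : K →L[ℂ] K) := by simp only [mul_assoc]
        _ = _ := by rw [hRR, mul_one]
    have h1 := t_eq (star y)
    rw [this, ← t_eq] at h1
    exact_mod_cast h1
  have step : ∀ x : pre hS hV hVE, P * (x : K →L[ℂ] K) = 0 →
      ∃ y : pre hS hV hVE, P * (y : K →L[ℂ] K) = 0 ∧ ‖y‖ ≤ ‖x‖ ∧ t y = 2 * t x := by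
    intro x hx
    have hxE : (x : K →L[ℂ] K) ∈ E := x.2.1
    have p1 : P * ((x : K →L[ℂ] K) * star S) = 0 := by rw [← mul_assoc, hx, zero_mul]
    have p2 : P * ((x : K →L[ℂ] K) * star T) = 0 := by rw [← mul_assoc, hx, zero_mul]
    have p3 : P * hC.psi x = 0 := by
      show P * (S * x * star S + T * x * star T) = 0
      rw [mul_add, mul_assoc S, mul_assoc T, hS.mul hSE, hS.mul hTE, p1, p2]; simp
    have m3 : hC.psi x ∈ E :=
      add_mem (mul_mem (mul_mem hSE hxE) (star_mem hSE)) (mul_mem (mul_mem hTE hxE) (star_mem hTE))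
    let y : pre hS hV hVE := ⟨hC.psi x, mk _ m3 p3⟩
    let y1 : pre hS hV hVE := ⟨x * star S, mk _ (mul_mem hxE (star_mem hSE)) p1⟩
    let y2 : pre hS hV hVE := ⟨x * star T, mk _ (mul_mem hxE (star_mem hTE)) p2⟩
    refine ⟨y, p3, NonUnitalStarAlgHom.norm_apply_le hC.psi (x : K →L[ℂ] K), ?_⟩
    have e : star y * y = star y1 * y1 + star y2 * y2 := by
      apply Subtype.ext
      simp only [MulMemClass.coe_mul, StarMemClass.coe_star, AddMemClass.coe_add, y, y1, y2]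
      rw [← map_star, ← map_mul]
      show S * (star (x : K →L[ℂ] K) * x) * star S + T * (star (x : K →L[ℂ] K) * x) * star T = _
      simp only [star_mul, star_star, mul_assoc]
    have h1 := t_eq y
    rw [e, map_add, AddMemClass.coe_add, add_apply, inner_add_right, ← t_eq, ← t_eq,
      iso S hSE hC.ss x y1 rfl, iso T hTE hC.tt x y2 rfl] at h1
    have h2 : t y = t x + t x := by exact_mod_cast h1
    linarith
  have iter : ∀ k : ℕ, ∃ y : pre hS hV hVE, P * (y : K →L[ℂ] K) = 0 ∧ ‖y‖ ≤ ‖j‖ ∧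
      t y = 2 ^ k * t j := by
    intro k
    induction k with
    | zero => exact ⟨j, hj, le_rfl, by simp⟩
    | succ k ih =>
      obtain ⟨y, h1, h2, h3⟩ := ih
      obtain ⟨y', h4, h5, h6⟩ := step y h1
      exact ⟨y', h4, h5.trans h2, by rw [h6, h3]; ring⟩
  have t0 : t j = 0 := by
    by_contra hne
    have hpos : 0 < t j := lt_of_le_of_ne (by positivity) (Ne.symm hne)
    obtain ⟨k, hk⟩ := pow_unbounded_of_one_lt ((‖j‖ * ‖ζ‖) ^ 2 / t j) (one_lt_two (α := ℝ))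
    obtain ⟨y, _, h2, h3⟩ := iter k
    have h4 := t_le y
    have h5 : (‖y‖ * ‖ζ‖) ^ 2 ≤ (‖j‖ * ‖ζ‖) ^ 2 := by gcongr
    rw [div_lt_iff₀ hpos] at hk
    linarith
  apply faithful (hV'.cut hS hV'E) tot' tr' (Φ j).2.2
  rw [hPz _ (Φ j).2.1]
  have : ‖(Φ j : K →L[ℂ] K) ζ‖ ^ 2 = 0 := t0
  simpa using this

theorem not_iso (hS : Setup E P) {V V' : G → K →L[ℂ] K} (hV : IsRep V) (hV' : IsRep V')
    (hVE : ∀ g, V g ∈ E) (hV'E : ∀ g, V' g ∈ E) {S T : K →L[ℂ] K} (hC : Cuntz S T)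
    (hSE : S ∈ E) (hTE : T ∈ E) {ζ : K} (hζ : P ζ = ζ)
    (tr0 : IsTr V ζ 1) (tot0 : Tot V)
    (tr : IsTr (fun g => P * V g) ζ 1) (tot : Tot (fun g => P * V g))
    (tr' : IsTr (fun g => P * V' g) ζ 1) (tot' : Tot (fun g => P * V' g))
    (NS : ∀ (D : Type) [NonUnitalCStarAlgebra D] (γ β : D →⋆ₙₐ[ℂ] (K →L[ℂ] K)),
      (∀ a, γ a ∈ E) → (∀ a, β a = P * γ a) → Function.Injective β →
      (∀ g, ∃ a, β a = P * V' g) → False) :
    IsEmpty (pre hS hV hVE ≃⋆ₐ[ℂ] pre hS hV' hV'E) := by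
  constructor
  intro Φ
  have hcl : IsClosed (hV.alg : Set (K →L[ℂ] K)) := gen_closed
  have hle : hV.alg ≤ E := by
    intro x hx
    refine gen_induction (fun a => a ∈ E) hS.closed (zero_mem _) (fun _ _ => add_mem)
      (fun c _ => SMulMemClass.smul_mem c) ?_ hx
    rintro _ ⟨g, rfl⟩
    exact hVE g
  have hle' : hV.alg ≤ pre hS hV hVE := by
    intro x hx
    refine gen_induction (fun a => a ∈ pre hS hV hVE) (pre_closed hS hV hVE) (zero_mem _)
      (fun _ _ => add_mem) (fun c _ => SMulMemClass.smul_mem c) ?_ hx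
    rintro _ ⟨g, rfl⟩
    exact ⟨hVE g, subset_gen ⟨g, rfl⟩⟩
  have hinj0 : ∀ a ∈ hV.alg, P * a = 0 → a = 0 := by
    intro a ha h0
    apply faithful hV tot0 tr0 ha
    have := congrArg (fun T : K →L[ℂ] K => T ζ) h0
    simp only [hS.comm a (hle ha), mul_apply_eq_comp, hζ] at this
    simpa using this
  let q := qHom hS hV.alg hle
  have qinj : Function.Injective q := by
    rw [injective_iff_map_eq_zero]
    intro a ha
    exact Subtype.ext (hinj0 a a.2 ha)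
  have qcl : IsClosed (Set.range q) :=
    (NonUnitalStarAlgHom.isometry q qinj).isClosedEmbedding.isClosed_range
  have qsurj : ∀ b ∈ (hV.cut hS hVE).alg, b ∈ Set.range q := by
    intro b hb
    refine gen_induction (fun a => a ∈ Set.range q) qcl ⟨0, map_zero q⟩ ?_ ?_ ?_ hb
    · rintro _ _ ⟨x, rfl⟩ ⟨y, rfl⟩
      exact ⟨x + y, map_add q x y⟩
    · rintro c _ ⟨x, rfl⟩
      exact ⟨c • x, map_smul q c x⟩
    · rintro _ ⟨g, rfl⟩
      exact ⟨⟨V g, subset_gen ⟨g, rfl⟩⟩, rfl⟩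
  let ι : hV.alg →⋆ₙₐ[ℂ] pre hS hV hVE := NonUnitalStarSubalgebra.inclusion hle'
  let φ : hV.alg →⋆ₙₐ[ℂ] pre hS hV' hV'E :=
    (Φ : pre hS hV hVE →⋆ₙₐ[ℂ] pre hS hV' hV'E).comp ι
  let γ : hV.alg →⋆ₙₐ[ℂ] (K →L[ℂ] K) :=
    (NonUnitalStarSubalgebraClass.subtype (pre hS hV' hV'E)).comp φ
  let β : hV.alg →⋆ₙₐ[ℂ] (K →L[ℂ] K) := (qHom hS (pre hS hV' hV'E) (fun _ h => h.1)).comp φ
  refine NS hV.alg γ β (fun a => (φ a).2.1) (fun a => rfl) ?_ ?_
  · rw [injective_iff_map_eq_zero]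
    intro a ha
    have h1 := ker_map hS hV' hV hV'E hVE hC hSE hTE hζ tr tot Φ.symm (Φ (ι a)) ha
    rw [StarAlgEquiv.symm_apply_apply] at h1
    exact Subtype.ext (hinj0 a a.2 h1)
  · intro g
    let v : pre hS hV' hV'E := ⟨V' g, hV'E g, subset_gen ⟨g, rfl⟩⟩
    obtain ⟨a, ha⟩ := qsurj _ (Φ.symm v).2.2
    refine ⟨a, ?_⟩
    have h1 := ker_map hS hV hV' hVE hV'E hC hSE hTE hζ tr' tot' Φ (Φ.symm v - ι a) (by
      rw [AddSubgroupClass.coe_sub, mul_sub, ← ha]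
      exact sub_self _)
    rw [map_sub, StarAlgEquiv.apply_symm_apply, AddSubgroupClass.coe_sub, mul_sub,
      sub_eq_zero] at h1
    exact h1.symm

end Pool.Agent.P.MP_5a22e6_an
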