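import Pool.Agent.P.MP_5a22e6_an.General

set_option autoImplicit false

open scoped InnerProductSpace ComplexConjugate
open Filter Topology

namespace Pool.Agent.P.MP_5a22e6_an

variable {K : Type} [NormedAddCommGroup K] [InnerProductSpace ℂ K] [CompleteSpace K]
variable {D : Type} [NonUnitalCStarAlgebra D] [PartialOrder D] [StarOrderedRing D]
variable {Y : Type} [Fintype Y]

/-- A matrix of operators as an operator on the finite Hilbert sum. -/
noncomputable def ampOp (T : Y → Y → K →L[ℂ] K) :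
    PiLp 2 (fun _ : Y => K) →L[ℂ] PiLp 2 (fun _ : Y => K) :=
  (PiLp.continuousLinearEquiv 2 ℂ (fun _ : Y => K)).symm.toContinuousLinearMap.comp
    ((ContinuousLinearMap.pi fun i => ∑ j, (T i j).comp (ContinuousLinearMap.proj j)).comp
      (PiLp.continuousLinearEquiv 2 ℂ (fun _ : Y => K)).toContinuousLinearMap)

omit [CompleteSpace K] in
theorem ampOp_apply (T : Y → Y → K →L[ℂ] K) (f : PiLp 2 (fun _ : Y => K)) (i : Y) :
    ampOp T f i = ∑ j, T i j (f j) := by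
  simp [ampOp]

omit [CompleteSpace K] in
theorem inner_ampOp (T : Y → Y → K →L[ℂ] K) (f g : PiLp 2 (fun _ : Y => K)) :
    ⟪g, ampOp T f⟫_ℂ = ∑ i, ∑ j, ⟪g i, T i j (f j)⟫_ℂ := by
  simp only [PiLp.inner_apply, ampOp_apply, inner_sum]

/-- Amplification of a star homomorphism. -/
noncomputable def amp (φ : D →⋆ₙₐ[ℂ] (K →L[ℂ] K)) :
    CStarMatrix Y Y D →⋆ₙₐ[ℂ] (PiLp 2 (fun _ : Y => K) →L[ℂ] PiLp 2 (fun _ : Y => K)) where
  toFun T := ampOp fun i j => φ (T i j)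
  map_smul' c T := by
    ext f i
    simp [ampOp_apply, Finset.smul_sum]
  map_zero' := by
    ext f i
    simp [ampOp_apply]
  map_add' T T' := by
    ext f i
    simp [ampOp_apply, Finset.sum_add_distrib]
  map_mul' T T' := by
    ext f i
    simp only [ampOp_apply, CStarMatrix.mul_apply, map_sum, map_mul, mul_apply_eq_comp,
      sum_apply]
    exact Finset.sum_comm
  map_star' T := by
    rw [ContinuousLinearMap.star_eq_adjoint, ContinuousLinearMap.eq_adjoint_iff]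
    intro f g
    rw [inner_ampOp, ← inner_conj_symm, inner_ampOp, Finset.sum_comm]
    simp only [map_sum, inner_conj_symm, CStarMatrix.star_apply, map_star,
      ContinuousLinearMap.star_eq_adjoint, ContinuousLinearMap.adjoint_inner_left]

theorem amp_injective [DecidableEq Y] (φ : D →⋆ₙₐ[ℂ] (K →L[ℂ] K)) (hφ : Function.Injective φ) :
    Function.Injective (amp (Y := Y) φ) := by
  rw [injective_iff_map_eq_zero]
  intro T hT
  ext i j
  apply hφ
  rw [CStarMatrix.zero_apply, map_zero]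
  ext v
  have := congrArg (fun A : PiLp 2 (fun _ : Y => K) →L[ℂ] PiLp 2 (fun _ : Y => K) =>
    A (WithLp.toLp 2 (Pi.single j v)) i) hT
  simp only [amp, NonUnitalStarAlgHom.coe_mk'] at this
  change ampOp (fun i j => φ (T i j)) _ i = _ at this
  rw [ampOp_apply, Finset.sum_eq_single j] at this
  · simpa using this
  · intro b _ hb
    simp [Pi.single_eq_of_ne hb]
  · simp

omit [PartialOrder D] [StarOrderedRing D] in
/-- A bound for a matrix form passes from a faithful representation to any representation. -/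
theorem transfer {S : Type} [Fintype S] (β γ : D →⋆ₙₐ[ℂ] (K →L[ℂ] K))
    (hβ : Function.Injective β) (σ : S → Y → Y) (a : S → D) (C : ℝ) (hC : 0 ≤ C)
    (h : ∀ f g : PiLp 2 (fun _ : Y => K),
      ‖∑ s, ∑ y, ⟪g (σ s y), β (a s) (f y)⟫_ℂ‖ ≤ C * ‖f‖ * ‖g‖)
    (f g : PiLp 2 (fun _ : Y => K)) :
    ‖∑ s, ∑ y, ⟪g (σ s y), γ (a s) (f y)⟫_ℂ‖ ≤ C * ‖f‖ * ‖g‖ := by
  classical
  let _ := CStarAlgebra.spectralOrder D
  have _ := CStarAlgebra.spectralOrderedRing D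
  let T : CStarMatrix Y Y D := CStarMatrix.ofMatrix fun i j => ∑ s, if σ s j = i then a s else 0
  have key : ∀ (φ : D →⋆ₙₐ[ℂ] (K →L[ℂ] K)) (f g : PiLp 2 (fun _ : Y => K)),
      ⟪g, amp φ T f⟫_ℂ = ∑ s, ∑ y, ⟪g (σ s y), φ (a s) (f y)⟫_ℂ := by
    intro φ f g
    change ⟪g, ampOp (fun i j => φ (T i j)) f⟫_ℂ = _
    rw [inner_ampOp, Finset.sum_comm]
    conv_rhs => rw [Finset.sum_comm]
    refine Finset.sum_congr rfl fun j _ => ?_
    have : ∀ i, ⟪g i, φ (T i j) (f j)⟫_ℂ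
        = ∑ s, if σ s j = i then ⟪g (σ s j), φ (a s) (f j)⟫_ℂ else 0 := by
      intro i
      change ⟪g i, φ (∑ s, if σ s j = i then a s else 0) (f j)⟫_ℂ = _
      rw [map_sum, sum_apply, inner_sum]
      refine Finset.sum_congr rfl fun s _ => ?_
      split_ifs with hs
      · rw [hs]
      · simp
    simp only [this]
    rw [Finset.sum_comm]
    simp
  have hb : ‖amp β T‖ ≤ C := by
    apply ContinuousLinearMap.opNorm_le_bound _ hC
    intro f
    have h1 := h f (amp β T f)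
    rw [← key, inner_self_eq_norm_sq_to_K] at h1
    have h2 : ‖amp β T f‖ ^ 2 ≤ C * ‖f‖ * ‖amp β T f‖ := by simpa using h1
    rcases (norm_nonneg (amp β T f)).eq_or_lt with h0 | h0
    · rw [← h0]; positivity
    · rw [sq] at h2
      exact le_of_mul_le_mul_right h2 h0
  have hg : ‖amp γ T‖ ≤ C := by
    calc ‖amp γ T‖ ≤ ‖T‖ := NonUnitalStarAlgHom.norm_apply_le _ _
      _ = ‖amp β T‖ := (NonUnitalStarAlgHom.norm_map _ (amp_injective β hβ) T).symm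
      _ ≤ C := hb
  rw [← key]
  calc ‖⟪g, amp γ T f⟫_ℂ‖ ≤ ‖g‖ * ‖amp γ T f‖ := norm_inner_le_norm _ _
    _ ≤ ‖g‖ * (C * ‖f‖) := by
      gcongr
      exact (amp γ T).le_of_opNorm_le hg f
    _ = _ := by ring

omit [CompleteSpace K] in
theorem half_bound {S : Type} [Fintype S] (σ : S → Y ≃ Y) (u v : S → Y → ℝ) (F G' : Y → ℝ)
    (A B : ℝ) (hA : 0 ≤ A) (hB : 0 ≤ B)
    (hu : ∀ y, ∑ s, u s y ^ 2 ≤ A ^ 2 * F y ^ 2) (hv : ∀ y, ∑ s, v s y ^ 2 ≤ B ^ 2 * G' y ^ 2)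
    (nF nG : ℝ) (hnF : 0 ≤ nF) (hnG : 0 ≤ nG) (hF : ∑ y, F y ^ 2 = nF ^ 2)
    (hG : ∑ y, G' y ^ 2 = nG ^ 2) :
    ∑ s, ∑ y, v s (σ s y) * u s y ≤ A * B * nF * nG := by
  rw [← Finset.sum_product']
  have cs := Finset.sum_mul_sq_le_sq_mul_sq (Finset.univ ×ˢ Finset.univ : Finset (S × Y))
    (fun p => v p.1 (σ p.1 p.2)) (fun p => u p.1 p.2)
  have h1 : ∑ p ∈ (Finset.univ ×ˢ Finset.univ : Finset (S × Y)), v p.1 (σ p.1 p.2) ^ 2
      ≤ (B * nG) ^ 2 := by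
    rw [Finset.sum_product' (f := fun s y => v s (σ s y) ^ 2)]
    have : ∀ s, ∑ y, v s (σ s y) ^ 2 = ∑ y, v s y ^ 2 := fun s =>
      Equiv.sum_comp (σ s) (fun y => v s y ^ 2)
    simp only [this]
    rw [Finset.sum_comm, mul_pow, ← hG, Finset.mul_sum]
    exact Finset.sum_le_sum fun y _ => hv y
  have h2 : ∑ p ∈ (Finset.univ ×ˢ Finset.univ : Finset (S × Y)), u p.1 p.2 ^ 2
      ≤ (A * nF) ^ 2 := by
    rw [Finset.sum_product' (f := fun s y => u s y ^ 2)]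
    rw [Finset.sum_comm, mul_pow, ← hF, Finset.mul_sum]
    exact Finset.sum_le_sum fun y _ => hu y
  have h3 := mul_le_mul h1 h2 (Finset.sum_nonneg fun _ _ => sq_nonneg _) (sq_nonneg _)
  have h4 := cs.trans h3
  rw [← mul_pow] at h4
  have h5 := abs_le_of_sq_le_sq' h4 (by positivity)
  linarith [h5.2]

/-- The row plus column estimate. -/
theorem row_col {S : Type} [Fintype S] (σ : S → Y ≃ Y) (T Q Q' : S → K →L[ℂ] K)
    (hT : ∀ s, ‖T s‖ ≤ 1) (hQ : ∀ s, star (Q s) = Q s) (hdec : ∀ s, T s = Q s * T s + T s * Q' s)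
    (hq : ∀ v, ∑ s, ‖Q s v‖ ^ 2 ≤ ‖v‖ ^ 2) (hq' : ∀ v, ∑ s, ‖Q' s v‖ ^ 2 ≤ ‖v‖ ^ 2)
    (f g : PiLp 2 (fun _ : Y => K)) :
    ‖∑ s, ∑ y, ⟪g (σ s y), T s (f y)⟫_ℂ‖ ≤ (2 * √(Fintype.card S)) * ‖f‖ * ‖g‖ := by
  have hterm : ∀ s y, ‖⟪g (σ s y), T s (f y)⟫_ℂ‖
      ≤ ‖Q s (g (σ s y))‖ * ‖f y‖ + ‖g (σ s y)‖ * ‖Q' s (f y)‖ := by
    intro s y
    have hTv : ∀ w, ‖T s w‖ ≤ ‖w‖ := fun w => by
      simpa using (T s).le_of_opNorm_le (hT s) w
    have e : ⟪g (σ s y), T s (f y)⟫_ℂ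
        = ⟪Q s (g (σ s y)), T s (f y)⟫_ℂ + ⟪g (σ s y), T s (Q' s (f y))⟫_ℂ := by
      conv_lhs => rw [hdec s]
      rw [add_apply, inner_add_right, ← inner_star_mul, hQ s]
      rfl
    rw [e]
    refine (norm_add_le _ _).trans (add_le_add ?_ ?_)
    · exact (norm_inner_le_norm _ _).trans (mul_le_mul_of_nonneg_left (hTv _) (norm_nonneg _))
    · exact (norm_inner_le_norm _ _).trans (mul_le_mul_of_nonneg_left (hTv _) (norm_nonneg _))
  have hF : ∑ y, ‖f y‖ ^ 2 = ‖f‖ ^ 2 := (PiLp.norm_sq_eq_of_L2 _ f).symm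
  have hG : ∑ y, ‖g y‖ ^ 2 = ‖g‖ ^ 2 := (PiLp.norm_sq_eq_of_L2 _ g).symm
  have hn : (√(Fintype.card S)) ^ 2 = (Fintype.card S : ℝ) := Real.sq_sqrt (by positivity)
  have b1 := half_bound σ (fun _ y => ‖f y‖) (fun s y => ‖Q s (g y)‖) (fun y => ‖f y‖)
    (fun y => ‖g y‖) (√(Fintype.card S)) 1 (by positivity) zero_le_one
    (fun y => by rw [hn]; simp) (fun y => by simpa using hq (g y)) ‖f‖ ‖g‖ (norm_nonneg _)
    (norm_nonneg _) hF hG
  have b2 := half_bound σ (fun s y => ‖Q' s (f y)‖) (fun _ y => ‖g y‖) (fun y => ‖f y‖)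
    (fun y => ‖g y‖) 1 (√(Fintype.card S)) zero_le_one (by positivity)
    (fun y => by simpa using hq' (f y)) (fun y => by rw [hn]; simp) ‖f‖ ‖g‖ (norm_nonneg _)
    (norm_nonneg _) hF hG
  calc ‖∑ s, ∑ y, ⟪g (σ s y), T s (f y)⟫_ℂ‖
      ≤ ∑ s, ∑ y, (‖Q s (g (σ s y))‖ * ‖f y‖ + ‖g (σ s y)‖ * ‖Q' s (f y)‖) :=
        (norm_sum_le _ _).trans (Finset.sum_le_sum fun s _ =>
          (norm_sum_le _ _).trans (Finset.sum_le_sum fun y _ => hterm s y))
    _ ≤ _ := by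
      simp only [Finset.sum_add_distrib]
      linarith

end Pool.Agent.P.MP_5a22e6_an
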