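import Pool.Agent.P.MP_5a22e6_an.Final

set_option autoImplicit false

open scoped InnerProductSpace ComplexConjugate ENNReal
open Filter Topology

namespace Pool.Agent.P.MP_5a22e6_an

section CuntzPair

variable {G : Type} [Group G]

/-- A piecewise translation. -/
noncomputable def piece (s : G) (A' : Set G) : L2 G ℂ →L[ℂ] L2 G ℂ := U s * ind A'ᶜ + ind A'

theorem star_piece (s : G) (A' : Set G) : star (piece s A') = ind A'ᶜ * U s⁻¹ + ind A' := by
  rw [piece, star_add, star_mul, star_ind, star_ind, star_U]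

theorem ind_piece (s : G) (A A' : Set G) (hA : ∀ x, s * x ∈ A ↔ x ∉ A') :
    ind (A ∪ A') * piece s A' = piece s A' := by
  have h1 : (ind A * U s : L2 G ℂ →L[ℂ] L2 G ℂ) = U s * ind A'ᶜ := ind_U s A A'ᶜ hA
  rw [piece, ← h1, mul_add, ← mul_assoc, ind_mul, ind_mul, Set.union_inter_cancel_left,
    Set.union_inter_cancel_right]

theorem piece_iso (s : G) (A A' : Set G) (hA : ∀ x, s * x ∈ A ↔ x ∉ A') (hd : A' ∩ A = ∅) :
    star (piece s A') * piece s A' = 1 := by
  have h1 : (ind A * U s : L2 G ℂ →L[ℂ] L2 G ℂ) = U s * ind A'ᶜ := ind_U s A A'ᶜ hA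
  have h2 : (ind A' * (U s * ind A'ᶜ) : L2 G ℂ →L[ℂ] L2 G ℂ) = 0 := by
    rw [← h1, ← mul_assoc, ind_mul, hd, ind_empty, zero_mul]
  have h3 : (ind A'ᶜ * U s⁻¹ * ind A' : L2 G ℂ →L[ℂ] L2 G ℂ) = 0 := by
    have := congrArg star h2
    rwa [star_mul, star_mul, star_ind, star_ind, star_U, star_zero] at this
  have h4 : (ind A'ᶜ * U s⁻¹ * (U s * ind A'ᶜ) : L2 G ℂ →L[ℂ] L2 G ℂ) = ind A'ᶜ := by
    rw [mul_assoc, ← mul_assoc (U s⁻¹), ← U_mul, inv_mul_cancel, U_one, one_mul, ind_mul,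
      Set.inter_self]
  rw [star_piece, piece, add_mul, mul_add, mul_add, h2, h3, h4, ind_mul, Set.inter_self, add_zero,
    zero_add, add_comm, ind_add_compl]

theorem cuntz_piece (s t : G) (A A' B B' : Set G) (hA : ∀ x, s * x ∈ A ↔ x ∉ A')
    (hB : ∀ x, t * x ∈ B ↔ x ∉ B') (hd : A' ∩ A = ∅) (hd' : B' ∩ B = ∅)
    (hAB : (A ∪ A') ∩ (B ∪ B') = ∅) : Cuntz (piece s A') (piece t B') := by
  refine ⟨piece_iso s A A' hA hd, piece_iso t B B' hB hd', ?_⟩
  rw [← ind_piece s A A' hA, ← ind_piece t B B' hB, star_mul, star_ind, mul_assoc,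
    ← mul_assoc (ind _), ind_mul, hAB, ind_empty, zero_mul, mul_zero]

end CuntzPair

open FreeGroup in
theorem exists_close (ε : ℝ) (hε : 0 < ε) :
    ∃ (K : Type) (_ : NormedAddCommGroup K) (_ : InnerProductSpace ℂ K) (_ : CompleteSpace K)
      (A B : NonUnitalStarSubalgebra ℂ (K →L[ℂ] K)),
      IsClosed (A : Set (K →L[ℂ] K)) ∧ IsClosed (B : Set (K →L[ℂ] K)) ∧
      TopologicalSpace.SeparableSpace A ∧ (1 : K →L[ℂ] K) ∈ A ∧
      Metric.hausdorffDist {x : K →L[ℂ] K | x ∈ A ∧ ‖x‖ ≤ 1} {x : K →L[ℂ] K | x ∈ B ∧ ‖x‖ ≤ 1}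
        < ε ∧ IsEmpty (A ≃⋆ₐ[ℂ] B) := by
  classical
  set z : ℝ := min (ε / 121) (1 / 6) with hzdef
  have hz0 : 0 < z := lt_min (by positivity) (by norm_num)
  have hz1 : z ≤ 1 / 6 := min_le_right _ _
  have hz2 : z ≤ ε / 121 := min_le_left _ _
  set c : ℝ := √(1 - z ^ 2) with hcdef
  have hcz : c ^ 2 + z ^ 2 = 1 := by
    rw [hcdef, Real.sq_sqrt (by nlinarith)]; ring
  obtain ⟨m, hm⟩ := exists_nat_gt (4 / z ^ 2)
  let α := Fin (m + 2)
  let _ : ∀ r, MulAction (FreeGroup α) (Equiv.Perm (Ball α r)) := fun r =>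
    MulAction.compHom _ (quo r)
  let _ : ∀ r, Fintype (Equiv.Perm (Ball α r)) := fun r => Fintype.ofFinite _
  have hA : ∀ (i : α) (x : FreeGroup α),
      of i * x ∈ startsWith (i, true) ↔ x ∉ startsWith (i, false) :=
    fun i x => letter_mul_mem_iff (i, true) x
  have hdis : ∀ w w' : α × Bool, w ≠ w' → startsWith w ∩ startsWith w' = ∅ := fun w w' h =>
    Set.disjoint_iff_inter_eq_empty.mp (startsWith.disjoint_iff_ne.mpr h)
  have hC := cuntz_piece (of (0 : α)) (of (1 : α)) _ _ _ _ (hA 0) (hA 1) (hdis _ _ (by simp))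
    (hdis _ _ (by simp)) (by
      have h01 : (0 : α) ≠ 1 := Fin.zero_ne_one
      rw [Set.union_inter_distrib_right, Set.inter_union_distrib_left,
        Set.inter_union_distrib_left, hdis _ _ (by simp [h01]), hdis _ _ (by simp [h01]),
        hdis _ _ (by simp [h01]), hdis _ _ (by simp [h01])]
      simp)
  obtain ⟨K, i1, i2, i3, A, B, h1, h2, h3, h4, h5, h6⟩ := counter (G := FreeGroup α)
    (fun r => Equiv.Perm (Ball α r)) (fun g hg => by
      filter_upwards [eventually_ge_atTop (norm g)] with r hr y hy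
      apply quo_ne_one g hg r hr
      have : quo r g * y = y := hy
      simpa using this)
    (ps c z hcz) (isRep_ps c z hcz) (ps_one c z hcz) (6 * z) (by positivity) (by linarith)
    (ps_close c z (Real.sqrt_nonneg _) hz0.le (by linarith) hcz)
    (fun i : α => of i) (fun i => startsWith (i, true)) (fun i => startsWith (i, false)) hA
    (fun i j x hi hj => (Prod.ext_iff.mp (starts_unique hi hj)).1)
    (fun i j x hi hj => (Prod.ext_iff.mp (starts_unique hi hj)).1)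
    _ _ hC (dl 1) (norm_dl 1) z (fun i => by
      rw [inner_dl, ps_of, rot_apply]
      have h1 : (of i : FreeGroup α)⁻¹ ≠ 1 := inv_ne_one.mpr (of_ne_one i)
      simp [dl_apply, h1, one_ne_of i])
    (by
      have hcard : (Fintype.card α : ℝ) = m + 2 := by simp [α]
      rw [hcard]
      have hn : (0 : ℝ) < m + 2 := by positivity
      rw [div_lt_iff₀ (by positivity)] at hm
      have h1 : √((m : ℝ) + 2) ^ 2 = m + 2 := Real.sq_sqrt hn.le
      have h2 : (2 * √((m : ℝ) + 2)) ^ 2 < ((m + 2) * z) ^ 2 := by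
        rw [mul_pow, mul_pow, h1]
        nlinarith [sq_nonneg z]
      exact lt_of_pow_lt_pow_left₀ 2 (by positivity) h2)
  exact ⟨K, i1, i2, i3, A, B, h1, h2, h3, h4, by linarith, h6⟩

end Pool.Agent.P.MP_5a22e6_an
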