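import Pool.Agent.P.MP_5a22e6_an.Rot

set_option autoImplicit false

open scoped InnerProductSpace ComplexConjugate ENNReal
open Filter Topology FreeGroup

namespace Pool.Agent.P.MP_5a22e6_an

variable {α : Type} [DecidableEq α]

theorem letter_mem (w : α × Bool) : mk [w] ∈ startsWith w := by
  simp [startsWith]

theorem letter_ne_one (w : α × Bool) : (mk [w] : FreeGroup α) ≠ 1 :=
  startsWith.ne_one _ (letter_mem w)

omit [DecidableEq α] in
theorem letter_inv (w : α × Bool) : (mk [w] : FreeGroup α)⁻¹ = mk [(w.1, !w.2)] := by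
  rw [inv_mk]; rfl

theorem starts_unique {w w' : α × Bool} {x : FreeGroup α} (h : x ∈ startsWith w)
    (h' : x ∈ startsWith w') : w = w' := by
  simp only [startsWith, Set.mem_ofPred_eq] at h h'
  rw [h] at h'
  exact Option.some.inj h'

theorem letter_mul_notMem (w : α × Bool) (x : FreeGroup α) (h : x ∈ startsWith (w.1, !w.2)) :
    mk [w] * x ∉ startsWith w := by
  intro h'
  obtain ⟨a, b⟩ := w
  have hx : ∃ L, x.toWord = (a, !b) :: L := by
    simp only [startsWith, Set.mem_ofPred_eq] at h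
    rcases hL : x.toWord with _ | ⟨y, L⟩
    · simp [hL] at h
    · rw [hL] at h
      simp only [List.getElem?_cons_zero, Option.some.injEq] at h
      exact ⟨L, by rw [h]⟩
  obtain ⟨L, hL⟩ := hx
  have hred : IsReduced ((a, !b) :: L) := hL ▸ isReduced_toWord
  have hxL : mk [(a, b)] * x = mk L := by
    have : x = mk [(a, !b)] * mk L := by rw [mul_mk, ← mk_toWord (x := x), hL]; rfl
    rw [this, ← mul_assoc]
    have h2 := letter_inv (α := α) (a, b)
    simp only at h2
    rw [← h2, mul_inv_cancel, one_mul]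
  rw [hxL] at h'
  have hL2 : IsReduced L := List.IsChain.tail hred
  simp only [startsWith, Set.mem_ofPred_eq, toWord_mk, hL2.reduce_eq] at h'
  rcases L with _ | ⟨y, L⟩
  · simp at h'
  · simp only [List.getElem?_cons_zero, Option.some.injEq] at h'
    subst h'
    rw [isReduced_cons_cons] at hred
    have := hred.1 rfl
    simp at this

theorem letter_mul_mem_iff (w : α × Bool) (x : FreeGroup α) :
    mk [w] * x ∈ startsWith w ↔ x ∉ startsWith (w.1, !w.2) :=
  ⟨fun h h' => letter_mul_notMem w x h' h, startsWith_mk_mul x⟩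

/-- The deformation of the regular representation, with values in the unitary group. -/
noncomputable def psU (c z : ℝ) (h : c ^ 2 + z ^ 2 = 1) :
    FreeGroup α →* unitary (L2 (FreeGroup α) ℂ →L[ℂ] L2 (FreeGroup α) ℂ) :=
  FreeGroup.lift fun a => ⟨rot c z (of a), rot_mem_unitary c z h _ (of_ne_one a)⟩

/-- The deformation of the regular representation. -/
noncomputable def ps (c z : ℝ) (h : c ^ 2 + z ^ 2 = 1) (g : FreeGroup α) :
    L2 (FreeGroup α) ℂ →L[ℂ] L2 (FreeGroup α) ℂ := psU c z h g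

theorem isRep_ps (c z : ℝ) (h : c ^ 2 + z ^ 2 = 1) : IsRep (ps (α := α) c z h) where
  mul g g' := by simp [ps]
  star g := by rw [ps, ps, _root_.map_inv, ← Unitary.star_eq_inv, Unitary.coe_star]

theorem ps_one (c z : ℝ) (h : c ^ 2 + z ^ 2 = 1) : ps (α := α) c z h 1 = 1 := by simp [ps]

theorem ps_of (c z : ℝ) (h : c ^ 2 + z ^ 2 = 1) (a : α) : ps c z h (of a) = rot c z (of a) := by
  simp [ps, psU]

theorem ps_letter (c z : ℝ) (h : c ^ 2 + z ^ 2 = 1) (w : α × Bool) :
    ps c z h (mk [w]) = rot c z (mk [w]) := by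
  obtain ⟨a, b⟩ := w
  cases b
  · have : (mk [(a, false)] : FreeGroup α) = (of a)⁻¹ := (letter_inv (a, true)).symm
    rw [this, ← (isRep_ps c z h).star, ps_of, star_rot]
  · exact ps_of c z h a

theorem ps_inv (c z : ℝ) (hc0 : 0 ≤ c) (hz0 : 0 ≤ z) (hz : z ≤ 1 / 3) (h : c ^ 2 + z ^ 2 = 1)
    (f : L2 (FreeGroup α) ℂ) (L : List (α × Bool)) (hL : IsReduced L) :
    (∀ x, (ps c z h (mk L) f - U (mk L) f) x ≠ 0 →
      x = 1 ∨ ∃ w, L.head? = some w ∧ x ∈ startsWith w) ∧
    ∃ T : Finset (FreeGroup α), (∀ x ∈ T, norm x ≤ L.length) ∧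
      ‖ps c z h (mk L) f - U (mk L) f‖ ^ 2 + 2 * ‖(ps c z h (mk L) f - U (mk L) f) 1‖ ^ 2
        ≤ 13 * z ^ 2 * (2 * ∑ x ∈ T, ‖f x‖ ^ 2 - ‖f (mk L)⁻¹‖ ^ 2) := by
  induction L with
  | nil =>
    rw [← one_eq_mk, ps_one, U_one, sub_self]
    refine ⟨fun x hx => absurd rfl hx, {1}, by simp, ?_⟩
    simp only [norm_zero, lp.coeFn_zero, Pi.zero_apply, Finset.sum_singleton, inv_one]
    have : 0 ≤ 13 * z ^ 2 * (2 * ‖f 1‖ ^ 2 - ‖f 1‖ ^ 2) := by
      apply mul_nonneg (by positivity)
      nlinarith [sq_nonneg ‖f 1‖]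
    simpa using this
  | cons w L ih =>
    have hL2 : IsReduced L := List.IsChain.tail hL
    obtain ⟨hsupp, T, hT, hb⟩ := ih hL2
    set u := ps c z h (mk L) f - U (mk L) f with hu
    have hhead : ∀ w', L.head? = some w' → w' ≠ (w.1, !w.2) := by
      intro w' hw' e
      rcases L with _ | ⟨y, L⟩
      · simp at hw'
      · simp only [List.head?_cons, Option.some.injEq] at hw'
        subst hw'
        rw [isReduced_cons_cons] at hL
        have := hL.1 (by rw [e])
        rw [e] at this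
        simp at this
    have hmk : (mk (w :: L) : FreeGroup α) = mk [w] * mk L := rfl
    have hu0 : u (mk [w])⁻¹ = 0 := by
      by_contra hne
      rcases hsupp _ hne with h1 | ⟨w', h1, h2⟩
      · exact letter_ne_one w (inv_eq_one.mp h1)
      · rw [letter_inv] at h2
        exact hhead w' h1 (starts_unique h2 (letter_mem _))
    have e : ps c z h (mk (w :: L)) f - U (mk (w :: L)) f
        = rot c z (mk [w]) (u + U (mk L) f) - U (mk [w]) (U (mk L) f) := by
      rw [hmk, (isRep_ps c z h).mul, U_mul, ps_letter, hu, sub_add_cancel]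
      rfl
    rw [e]
    constructor
    · intro x hx
      by_cases h1 : x = 1
      · exact Or.inl h1
      refine Or.inr ⟨w, rfl, ?_⟩
      by_cases h2 : x = mk [w]
      · rw [h2]; exact letter_mem w
      have h3 : u ((mk [w])⁻¹ * x) ≠ 0 := by
        intro h0
        apply hx
        rw [lp.coeFn_sub, Pi.sub_apply, rot_apply, U_apply, if_neg h1, if_neg h2, lp.coeFn_add,
          Pi.add_apply, h0]
        simp
      have hx' : x = mk [w] * ((mk [w])⁻¹ * x) := (mul_inv_cancel_left _ _).symm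
      rcases hsupp _ h3 with h4 | ⟨w', h4, h5⟩
      · exact absurd (by rw [hx', h4, mul_one]) h2
      · rw [hx', letter_mul_mem_iff]
        intro h6
        exact hhead w' h4 (starts_unique h5 h6)
    · have hnorm : norm (mk (w :: L) : FreeGroup α)⁻¹ = L.length + 1 := by
        rw [norm_inv_eq, FreeGroup.norm, toWord_mk, hL.reduce_eq, List.length_cons]
      have hnot : (mk (w :: L) : FreeGroup α)⁻¹ ∉ T := fun hm => by
        have := hT _ hm
        omega
      refine ⟨insert (mk (w :: L))⁻¹ T, ?_, ?_⟩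
      · intro x hx
        rw [Finset.mem_insert] at hx
        rcases hx with rfl | hx
        · rw [hnorm, List.length_cons]
        · exact (hT x hx).trans (by simp)
      · have st := rot_step c z hc0 hz0 hz h (mk [w]) (letter_ne_one w) u (U (mk L) f) hu0
        have a1 : (U (mk L) f : L2 (FreeGroup α) ℂ) 1 = f (mk L)⁻¹ := by
          rw [U_apply]; simp
        have a2 : (U (mk L) f : L2 (FreeGroup α) ℂ) (mk [w])⁻¹ = f (mk (w :: L))⁻¹ := by
          rw [U_apply, hmk, mul_inv_rev]; rfl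
        rw [a1, a2] at st
        rw [Finset.sum_insert hnot]
        linarith

theorem ps_close (c z : ℝ) (hc0 : 0 ≤ c) (hz0 : 0 ≤ z) (hz : z ≤ 1 / 3) (h : c ^ 2 + z ^ 2 = 1)
    (g : FreeGroup α) : ‖ps c z h g - U g‖ ≤ 6 * z := by
  apply ContinuousLinearMap.opNorm_le_bound _ (by positivity)
  intro f
  obtain ⟨-, T, -, hb⟩ := ps_inv c z hc0 hz0 hz h f g.toWord isReduced_toWord
  rw [mk_toWord] at hb
  have h1 : ∑ x ∈ T, ‖f x‖ ^ 2 ≤ ‖f‖ ^ 2 :=
    sum_le_hasSum T (fun _ _ => sq_nonneg _) (hasSum_sq f)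
  have h2 : 13 * z ^ 2 * (2 * ∑ x ∈ T, ‖f x‖ ^ 2 - ‖f g⁻¹‖ ^ 2) ≤ 13 * z ^ 2 * (2 * ‖f‖ ^ 2) := by
    apply mul_le_mul_of_nonneg_left _ (by positivity)
    nlinarith [sq_nonneg ‖f g⁻¹‖]
  have h3 : ‖ps c z h g f - U g f‖ ^ 2 ≤ (6 * z * ‖f‖) ^ 2 := by
    have := sq_nonneg ‖(ps c z h g f - U g f) 1‖
    have := sq_nonneg (z * ‖f‖)
    nlinarith
  exact (abs_le_of_sq_le_sq' h3 (by positivity)).2

section Finite

/-- The ball of radius `r` in the free group. -/
abbrev Ball (α : Type) [DecidableEq α] (r : ℕ) := {x : FreeGroup α // norm x ≤ r}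

instance [Finite α] (r : ℕ) : Finite (Ball α r) := by
  have h := List.finite_length_le (α × Bool) r
  have : {x : FreeGroup α | norm x ≤ r}.Finite :=
    h.preimage (f := toWord) toWord_injective.injOn
  exact this

/-- Left translation between two subsets of the ball. -/
def ballEquiv (r : ℕ) (s : FreeGroup α) :
    {x : Ball α r // norm (s * x.1) ≤ r} ≃ {x : Ball α r // norm (s⁻¹ * x.1) ≤ r} where
  toFun x := ⟨⟨s * x.1.1, x.2⟩, by simpa using x.1.2⟩
  invFun x := ⟨⟨s⁻¹ * x.1.1, x.2⟩, by simpa using x.1.2⟩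
  left_inv x := by simp
  right_inv x := by simp

variable [Finite α]

/-- A finite quotient that sees the ball of radius `r`. -/
noncomputable def quo (r : ℕ) : FreeGroup α →* Equiv.Perm (Ball α r) :=
  FreeGroup.lift fun a => (ballEquiv r (of a)).extendSubtype

theorem quo_of (r : ℕ) (a : α) (x : Ball α r) (h : norm (of a * x.1) ≤ r) :
    quo r (of a) x = ⟨of a * x.1, h⟩ := by
  rw [quo, lift_apply_of, Equiv.extendSubtype_apply_of_mem _ x h]
  rfl

theorem quo_letter (r : ℕ) (w : α × Bool) (x : Ball α r) (h : norm (mk [w] * x.1) ≤ r) :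
    quo r (mk [w]) x = ⟨mk [w] * x.1, h⟩ := by
  obtain ⟨a, b⟩ := w
  cases b
  · have e : (mk [(a, false)] : FreeGroup α) = (of a)⁻¹ := (letter_inv (a, true)).symm
    have h1 := quo_of r a ⟨mk [(a, false)] * x.1, h⟩ (by simpa [e] using x.2)
    conv_lhs => rw [e, _root_.map_inv]
    rw [Equiv.Perm.inv_eq_iff_eq, h1]
    apply Subtype.ext
    simp [e]
  · exact quo_of r a x h

theorem quo_mk (r : ℕ) (L : List (α × Bool)) (hL : L.length ≤ r) :
    (quo r (mk L) ⟨1, norm_one.trans_le (Nat.zero_le r)⟩).1 = mk L := by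
  induction L with
  | nil => rw [← one_eq_mk, _root_.map_one]; rfl
  | cons w L ih =>
    have hmk : (mk (w :: L) : FreeGroup α) = mk [w] * mk L := rfl
    rw [List.length_cons] at hL
    have h1 := ih (by omega)
    rw [hmk, _root_.map_mul, Equiv.Perm.mul_apply, quo_letter r w _ (by
      rw [h1, ← hmk]; exact norm_mk_le.trans (by simpa using hL))]
    simp [h1]

theorem quo_ne_one (g : FreeGroup α) (hg : g ≠ 1) (r : ℕ) (hr : norm g ≤ r) : quo r g ≠ 1 := by
  intro h
  have := quo_mk r g.toWord hr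
  rw [mk_toWord, h] at this
  exact hg this.symm

end Finite

end Pool.Agent.P.MP_5a22e6_an
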