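import Pool.Agent.P.MP_5a22e6_an.Model
import Pool.Agent.P.MP_5a22e6_an.Free

set_option autoImplicit false

open scoped InnerProductSpace ComplexConjugate ENNReal
open Filter Topology

namespace Pool.Agent.P.MP_5a22e6_an

section Limit

variable {G : Type} [Group G] [DecidableEq G] {H : Type} [NormedAddCommGroup H]
  [InnerProductSpace ℂ H]
variable (Y : ℕ → Type) [∀ r, Fintype (Y r)] [∀ r, Nonempty (Y r)] [∀ r, DecidableEq (Y r)]
  [∀ r, MulAction G (Y r)]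

/-- The vector `ξ` placed at a point of a finite orbit. -/
noncomputable def pt (G : Type) [DecidableEq G] (ξ : H) (r : ℕ) (y : Y r) :
    L2 (G ⊕ Σ r, Y r) H := lp.single 2 (Sum.inr ⟨r, y⟩) ξ

/-- Averaged matrix coefficients over a finite block. -/
noncomputable def avg (ξ : H) (g : G) (r : ℕ)
    (x : L2 (G ⊕ Σ r, Y r) H →L[ℂ] L2 (G ⊕ Σ r, Y r) H) : ℂ :=
  (Fintype.card (Y r) : ℂ)⁻¹ * ∑ y : Y r, ⟪pt Y G ξ r (g • y), x (pt Y G ξ r y)⟫_ℂ

omit [Group G] [InnerProductSpace ℂ H] [∀ r, Fintype (Y r)] [∀ r, Nonempty (Y r)]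
  [∀ r, MulAction G (Y r)] in
theorem norm_pt (ξ : H) (hξ : ‖ξ‖ = 1) (r : ℕ) (y : Y r) : ‖pt Y G ξ r y‖ = 1 := by
  rw [pt, lp.norm_single (by simp), hξ]

theorem norm_avg_le (ξ : H) (hξ : ‖ξ‖ = 1) (g : G) (r : ℕ)
    (x : L2 (G ⊕ Σ r, Y r) H →L[ℂ] L2 (G ⊕ Σ r, Y r) H) : ‖avg Y ξ g r x‖ ≤ ‖x‖ := by
  have hc : (0 : ℝ) < Fintype.card (Y r) := by exact_mod_cast Fintype.card_pos
  rw [avg, norm_mul, norm_inv, Complex.norm_natCast, inv_mul_le_iff₀ hc]
  calc _ ≤ ∑ y : Y r, ‖x‖ := (norm_sum_le _ _).trans (Finset.sum_le_sum fun y _ => ?_)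
    _ = _ := by simp
  refine (norm_inner_le_norm _ _).trans ?_
  rw [norm_pt Y ξ hξ, one_mul]
  simpa [norm_pt Y ξ hξ] using x.le_opNorm (pt Y G ξ r y)

omit [∀ r, Nonempty (Y r)] in
theorem avg_add (ξ : H) (g : G) (r : ℕ)
    (x x' : L2 (G ⊕ Σ r, Y r) H →L[ℂ] L2 (G ⊕ Σ r, Y r) H) :
    avg Y ξ g r (x + x') = avg Y ξ g r x + avg Y ξ g r x' := by
  simp only [avg, add_apply, inner_add_right, Finset.sum_add_distrib, mul_add]

omit [∀ r, Nonempty (Y r)] in
theorem avg_smul (ξ : H) (g : G) (r : ℕ) (c : ℂ)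
    (x : L2 (G ⊕ Σ r, Y r) H →L[ℂ] L2 (G ⊕ Σ r, Y r) H) :
    avg Y ξ g r (c • x) = c * avg Y ξ g r x := by
  simp only [avg, smul_apply, inner_smul_right, ← Finset.mul_sum]
  ring

theorem avg_closed (ξ : H) (hξ : ‖ξ‖ = 1) (g : G) :
    IsClosed {x : L2 (G ⊕ Σ r, Y r) H →L[ℂ] L2 (G ⊕ Σ r, Y r) H |
      Tendsto (fun r => avg Y ξ g r x) atTop
        (𝓝 ⟪(lp.single 2 (Sum.inl g) ξ : L2 (G ⊕ Σ r, Y r) H), x (lp.single 2 (Sum.inl 1) ξ)⟫_ℂ)} := by
  apply Equicontinuous.isClosed_setOfPred_tendsto (F := avg Y ξ g) _ (by fun_prop)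
  refine (LipschitzWith.uniformEquicontinuous (avg Y ξ g) 1 ?_).equicontinuous
  intro r
  apply LipschitzWith.of_dist_le_mul
  intro x x'
  rw [dist_eq_norm, dist_eq_norm, NNReal.coe_one, one_mul]
  have h := avg_add Y ξ g r (x - x') x'
  rw [sub_add_cancel] at h
  rw [h, add_sub_cancel_right]
  exact norm_avg_le Y ξ hξ g r _

theorem avg_UC (hfree : ∀ g : G, g ≠ 1 → ∀ᶠ r in atTop, ∀ y : Y r, g • y ≠ y) (ξ : H) (g k : G)
    (b : H →L[ℂ] H) :
    Tendsto (fun r => avg Y ξ g r (U k * cst b)) atTop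
      (𝓝 ⟪(lp.single 2 (Sum.inl g) ξ : L2 (G ⊕ Σ r, Y r) H),
        (U k * cst b : L2 (G ⊕ Σ r, Y r) H →L[ℂ] L2 (G ⊕ Σ r, Y r) H)
          (lp.single 2 (Sum.inl 1) ξ)⟫_ℂ) := by
  simp only [avg, pt, UC_single, inner_single_single, Sum.smul_inl, Sum.smul_inr, Sigma.smul_mk,
    smul_eq_mul, mul_one, Sum.inl.injEq, Sum.inr.injEq]
  by_cases h : g = k
  · subst h
    simp only [if_true, Finset.sum_const, Finset.card_univ, nsmul_eq_mul]
    refine tendsto_const_nhds.congr fun r => ?_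
    have hc : (Fintype.card (Y r) : ℂ) ≠ 0 := by exact_mod_cast Fintype.card_ne_zero
    field_simp
  · rw [if_neg h]
    refine tendsto_const_nhds.congr' ?_
    filter_upwards [hfree (k⁻¹ * g) (by rwa [ne_eq, inv_mul_eq_one, eq_comm])] with r hr
    rw [Finset.sum_eq_zero, mul_zero]
    intro y _
    rw [if_neg]
    intro e
    apply hr y
    have e2 : g • y = k • y := by simpa using e
    rw [mul_smul, e2, inv_smul_smul]

end Limit

/-- The counterexample from its ingredients. -/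
theorem counter {G : Type} [Group G] [DecidableEq G] [Countable G]
    (Y : ℕ → Type) [∀ r, Fintype (Y r)] [∀ r, Nonempty (Y r)] [∀ r, DecidableEq (Y r)]
    [∀ r, MulAction G (Y r)] (hfree : ∀ g : G, g ≠ 1 → ∀ᶠ r in atTop, ∀ y : Y r, g • y ≠ y)
    (π : G → L2 G ℂ →L[ℂ] L2 G ℂ) (hπ : IsRep π) (hπ1 : π 1 = 1) (ε : ℝ) (hε : 0 < ε)
    (hε1 : ε ≤ 1) (hc : ∀ g, ‖π g - U g‖ ≤ ε)
    {S : Type} [Fintype S] (s : S → G) (A A' : S → Set G) (hA : ∀ i x, s i * x ∈ A i ↔ x ∉ A' i)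
    (dA : ∀ i j x, x ∈ A i → x ∈ A j → i = j) (dA' : ∀ i j x, x ∈ A' i → x ∈ A' j → i = j)
    (S1 S2 : L2 G ℂ →L[ℂ] L2 G ℂ) (hC : Cuntz S1 S2) (ξ : L2 G ℂ) (hξ : ‖ξ‖ = 1) (z : ℝ)
    (hz : ∀ i, ⟪ξ, π (s i) ξ⟫_ℂ = z) (hn : 2 * √(Fintype.card S) < Fintype.card S * z) :
    ∃ (K : Type) (_ : NormedAddCommGroup K) (_ : InnerProductSpace ℂ K) (_ : CompleteSpace K)
      (A B : NonUnitalStarSubalgebra ℂ (K →L[ℂ] K)),
      IsClosed (A : Set (K →L[ℂ] K)) ∧ IsClosed (B : Set (K →L[ℂ] K)) ∧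
      TopologicalSpace.SeparableSpace A ∧ (1 : K →L[ℂ] K) ∈ A ∧
      Metric.hausdorffDist {x : K →L[ℂ] K | x ∈ A ∧ ‖x‖ ≤ 1} {x : K →L[ℂ] K | x ∈ B ∧ ‖x‖ ≤ 1}
        ≤ 20 * ε ∧ IsEmpty (A ≃⋆ₐ[ℂ] B) := by
  let K := L2 (G ⊕ Σ r, Y r) (L2 G ℂ)
  let π0 : G → L2 G ℂ →L[ℂ] L2 G ℂ := U
  have hπ0 : IsRep π0 := isRep_U
  have hπ01 : π0 1 = 1 := U_one
  let V0 : G → K →L[ℂ] K := tw (G ⊕ Σ r, Y r) π0
  let V1 : G → K →L[ℂ] K := tw (G ⊕ Σ r, Y r) π
  have hV0 : IsRep V0 := isRep_tw hπ0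
  have hV1 : IsRep V1 := isRep_tw hπ
  let T : Set (K →L[ℂ] K) :=
    Set.range V0 ∪ Set.range V1 ∪ {cst S1, cst S2, cst (star S1), cst (star S2)}
  have hT : T.Countable :=
    ((Set.countable_range _).union (Set.countable_range _)).union (Set.toFinite _).countable
  let M : Set (K →L[ℂ] K) := Submonoid.closure T
  have hmul : ∀ x ∈ M, ∀ y ∈ M, x * y ∈ M := fun x hx y hy => Submonoid.mul_mem _ hx hy
  have hstar : ∀ x ∈ M, star x ∈ M := by
    intro x hx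
    induction hx using Submonoid.closure_induction with
    | mem y hy =>
      apply Submonoid.subset_closure
      rcases hy with (⟨g, rfl⟩ | ⟨g, rfl⟩) | rfl | rfl | rfl | rfl
      · exact Or.inl (Or.inl ⟨g⁻¹, (hV0.star g).symm⟩)
      · exact Or.inl (Or.inr ⟨g⁻¹, (hV1.star g).symm⟩)
      · rw [star_cst]; exact Or.inr (by simp)
      · rw [star_cst]; exact Or.inr (by simp)
      · rw [star_cst, star_star]; exact Or.inr (by simp)
      · rw [star_cst, star_star]; exact Or.inr (by simp)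
    | one => rw [star_one]; exact Submonoid.one_mem _
    | mul y w _ _ h1 h2 => rw [star_mul]; exact Submonoid.mul_mem _ h2 h1
  have hform : ∀ x ∈ M, ∃ (g : G) (b : L2 G ℂ →L[ℂ] L2 G ℂ), x = U g * cst b := by
    intro x hx
    induction hx using Submonoid.closure_induction with
    | mem y hy =>
      rcases hy with (⟨g, rfl⟩ | ⟨g, rfl⟩) | rfl | rfl | rfl | rfl
      · exact ⟨g, _, rfl⟩
      · exact ⟨g, _, rfl⟩
      all_goals exact ⟨1, _, by rw [U_one, one_mul]⟩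
    | one => exact ⟨1, 1, by rw [U_one, cst_one, one_mul]⟩
    | mul y w _ _ h1 h2 =>
      obtain ⟨g, a, rfl⟩ := h1
      obtain ⟨h, b, rfl⟩ := h2
      exact ⟨g * h, a * b, UC_mul g h a b⟩
  let E : NonUnitalStarSubalgebra ℂ (K →L[ℂ] K) := gen M hmul hstar
  let P : K →L[ℂ] K := proj G (Σ r, Y r) (L2 G ℂ)
  have hS : Setup E P := by
    refine ⟨gen_closed, star_ind _, ?_, ?_⟩
    · simp only [P, proj]
      rw [ind_mul, Set.inter_self]
    · intro x hx
      refine gen_induction (fun x => P * x = x * P) (isClosed_eq (by fun_prop) (by fun_prop))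
        (by simp) ?_ ?_ ?_ hx
      · intro a b h1 h2
        rw [mul_add, add_mul, h1, h2]
      · intro c a h1
        rw [mul_smul_comm, smul_mul_assoc, h1]
      · intro a ha
        obtain ⟨g, b, rfl⟩ := hform a ha
        exact proj_UC g b
  have hTE : ∀ x ∈ T, x ∈ E := fun x hx => subset_gen (Submonoid.subset_closure hx)
  have h0E : ∀ g, V0 g ∈ E := fun g => hTE _ (Or.inl (Or.inl ⟨g, rfl⟩))
  have h1E : ∀ g, V1 g ∈ E := fun g => hTE _ (Or.inl (Or.inr ⟨g, rfl⟩))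
  obtain ⟨W, hW1, hW2, hW3⟩ := exists_fell (Z := Σ r, Y r) hπ0 hπ01 hπ hπ1 ε hε.le hc
  have hV01 : V0 1 = 1 := by
    simp only [V0, tw]
    rw [hπ01, U_one, cst_one, one_mul]
  have hξ2 : ⟪ξ, ξ⟫_ℂ = 1 := by rw [inner_self_eq_norm_sq_to_K, hξ]; simp
  let ζ : K := lp.single 2 (Sum.inl 1) ξ
  have hζ : P ζ = ζ := ind_single_of_mem 
    (show (Sum.inl 1 : G ⊕ Σ r, Y r) ∈ Set.range Sum.inl from ⟨1, rfl⟩) ξ
  refine ⟨K, inferInstance, inferInstance, inferInstance, pre hS hV0 h0E, pre hS hV1 h1E,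
    pre_closed _ _ _, pre_closed _ _ _, ?_, ?_,
    hausdorff_le hS hV0 hV1 h0E h1E W hW1 ε hε hε1 hW2 hW3, ?_⟩
  · exact ((gen_separable (countable_closure hT)).mono (fun x hx => hx.1)).separableSpace
  · rw [← hV01]
    exact ⟨h0E 1, subset_gen ⟨1, rfl⟩⟩
  have hC' : Cuntz (cst S1 : K →L[ℂ] K) (cst S2) := by
    constructor
    · rw [star_cst, ← cst_mul, hC.ss, cst_one]
    · rw [star_cst, ← cst_mul, hC.tt, cst_one]
    · rw [star_cst, ← cst_mul, hC.st, cst_zero]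
  refine not_iso hS hV0 hV1 h0E h1E hC' (hTE _ (Or.inr (by simp))) (hTE _ (Or.inr (by simp))) hζ
    (hξ2 ▸ isTr_inl hπ01 1 ξ) tot_reg (hξ2 ▸ isTr_cut_inl hπ01 1 ξ) (tot_cut hπ01)
    (hξ2 ▸ isTr_cut_inl hπ1 1 ξ) (tot_cut hπ1) ?_
  intro D _ γ β hγ hβ hinj hsurj
  choose a ha using hsurj
  have hlim : ∀ i, Tendsto (fun r => avg Y ξ (s i) r (γ (a (s i)))) atTop (𝓝 (z : ℂ)) := by
    intro i
    have h1 : Tendsto (fun r => avg Y ξ (s i) r (γ (a (s i)))) atTop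
        (𝓝 ⟪(lp.single 2 (Sum.inl (s i)) ξ : K), γ (a (s i)) ζ⟫_ℂ) := by
      refine gen_induction (fun x => Tendsto (fun r => avg Y ξ (s i) r x) atTop
        (𝓝 ⟪(lp.single 2 (Sum.inl (s i)) ξ : K), x ζ⟫_ℂ)) (avg_closed Y ξ hξ (s i)) ?_ ?_ ?_ ?_
        (hγ (a (s i)))
      · simp [avg]
      · intro x y h1 h2
        simp only [avg_add, add_apply, inner_add_right]
        exact h1.add h2
      · intro c x h1
        simp only [avg_smul, smul_apply, inner_smul_right]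
        exact h1.const_mul c
      · intro x hx
        obtain ⟨g, b, rfl⟩ := hform x hx
        exact avg_UC Y hfree ξ (s i) g b
    have h2 : γ (a (s i)) ζ = lp.single 2 (Sum.inl (s i)) (π (s i) ξ) := by
      rw [← hζ, ← mul_apply_eq_comp, ← hS.comm _ (hγ _), ← hβ, ha, hS.comm _ (h1E _),
        mul_apply_eq_comp, hζ]
      simp only [V1, tw, ζ]
      rw [UC_single]
      simp
    rw [h2, inner_single_single, if_pos rfl, hz] at h1
    exact h1
  have hbound : ∀ r, ‖∑ i, avg Y ξ (s i) r (γ (a (s i)))‖ ≤ 2 * √(Fintype.card S) := by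
    intro r
    have hc : (0 : ℝ) < Fintype.card (Y r) := by exact_mod_cast Fintype.card_pos
    let f : PiLp 2 (fun _ : Y r => K) := WithLp.toLp 2 fun y => pt Y G ξ r y
    have hf : ‖f‖ * ‖f‖ = Fintype.card (Y r) := by
      rw [← sq, PiLp.norm_sq_eq_of_L2]
      simp [f, norm_pt Y ξ hξ]
    have h1 := transfer β γ hinj (fun i (y : Y r) => s i • y) (fun i => a (s i))
      (2 * √(Fintype.card S)) (by positivity) (fun f g => by
        simp only [ha]
        refine row_col (fun i => MulAction.toPerm (s i)) (fun i => P * V1 (s i))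
          (fun i => ind (Sum.inl '' A i)) (fun i => ind (Sum.inl '' A' i)) ?_ (fun i => star_ind _)
          (fun i => cut_dec π (s i) _ _ (hA i)) ?_ ?_ f g
        · intro i
          have hV11 : V1 1 = 1 := by
            simp only [V1, tw]
            rw [hπ1, U_one, cst_one, one_mul]
          exact (norm_mul_le _ _).trans
            (mul_le_one₀ hS.norm_le (norm_nonneg _) (hV1.norm_le hV11 _))
        · apply sum_ind_le
          rintro i j _ ⟨x, hx, rfl⟩ ⟨y, hy, e⟩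
          rw [Sum.inl.injEq] at e
          exact dA i j x hx (e ▸ hy)
        · apply sum_ind_le
          rintro i j _ ⟨x, hx, rfl⟩ ⟨y, hy, e⟩
          rw [Sum.inl.injEq] at e
          exact dA' i j x hx (e ▸ hy)) f f
    simp only [avg]
    rw [← Finset.mul_sum, norm_mul, norm_inv, Complex.norm_natCast, inv_mul_le_iff₀ hc]
    rw [mul_assoc, hf] at h1
    rw [mul_comm]
    exact h1
  have h3 := le_of_tendsto' (tendsto_finsetSum Finset.univ (fun i _ => hlim i)).norm hbound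
  simp only [Finset.sum_const, Finset.card_univ, nsmul_eq_mul, norm_mul, Complex.norm_natCast,
    Complex.norm_real, Real.norm_eq_abs] at h3
  have h4 : (Fintype.card S : ℝ) * z ≤ Fintype.card S * |z| :=
    mul_le_mul_of_nonneg_left (le_abs_self z) (by positivity)
  linarith

end Pool.Agent.P.MP_5a22e6_an
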