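import Mathlib

set_option autoImplicit false

open scoped InnerProductSpace ComplexConjugate
open Filter Topology

namespace Pool.Agent.P.MP_5a22e6_an

theorem hom_cont {D B : Type*} [NonUnitalCStarAlgebra D] [NonUnitalCStarAlgebra B]
    (q : D →⋆ₙₐ[ℂ] B) : Continuous q :=
  AddMonoidHomClass.continuous_of_bound q 1
    (by simpa only [one_mul] using NonUnitalStarAlgHom.norm_apply_le q)

/-- Lifting with norm control along a star homomorphism, self-adjoint case. -/
theorem lift_sa {D B : Type*} [NonUnitalCStarAlgebra D] [NonUnitalCStarAlgebra B]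
    (q : D →⋆ₙₐ[ℂ] B) (h : D) (hh : IsSelfAdjoint h) :
    ∃ z : D, q z = q h ∧ ‖z‖ ≤ ‖q h‖ := by
  set c : ℝ := ‖q h‖ with hc
  have hc0 : 0 ≤ c := norm_nonneg _
  let f : ℝ → ℝ := fun t => max (-c) (min t c)
  have hf : Continuous f := by fun_prop
  have hf0 : f 0 = 0 := by simp [f, hc0]
  have hqh : IsSelfAdjoint (q h) := by
    rw [IsSelfAdjoint, ← map_star, hh.star_eq]
  refine ⟨cfcₙ f h, ?_, ?_⟩
  · rw [NonUnitalStarAlgHom.map_cfcₙ q f h hf.continuousOn hf0 (hom_cont q) hh hqh]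
    conv_rhs => rw [← cfcₙ_id' ℝ (q h) hqh]
    apply cfcₙ_congr
    intro x hx
    have h1 : ‖x‖ ≤ ‖q h‖ :=
      NonUnitalIsometricContinuousFunctionalCalculus.norm_quasispectrum_le (q h) hx hqh
    rw [Real.norm_eq_abs, abs_le] at h1
    simp only [f]
    rw [min_eq_left h1.2, max_eq_right h1.1]
  · apply norm_cfcₙ_le
    intro x _
    rw [Real.norm_eq_abs, abs_le]
    exact ⟨le_max_left _ _, max_le (by linarith) (min_le_right _ _)⟩

theorem lift_norm {D B : Type*} [NonUnitalCStarAlgebra D] [NonUnitalCStarAlgebra B]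
    (q : D →⋆ₙₐ[ℂ] B) (x : D) : ∃ z : D, q z = q x ∧ ‖z‖ ≤ 2 * ‖q x‖ := by
  let h : D := (1 / 2 : ℂ) • (x + star x)
  let k : D := (Complex.I / 2 : ℂ) • (star x - x)
  have hh : IsSelfAdjoint h := by
    simp [h, IsSelfAdjoint, add_comm]
  have hk : IsSelfAdjoint k := by
    simp only [k, IsSelfAdjoint, star_smul, star_sub, star_star]
    have : star (Complex.I / 2 : ℂ) = -(Complex.I / 2) := by
      simp [neg_div]
    rw [this, neg_smul, ← smul_neg, neg_sub]
  have hx : x = h + Complex.I • k := by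
    simp only [h, k, smul_smul]
    have : Complex.I * (Complex.I / 2) = -(1 / 2 : ℂ) := by
      rw [← mul_div_assoc, Complex.I_mul_I]; ring
    rw [this]
    module
  obtain ⟨z1, e1, n1⟩ := lift_sa q h hh
  obtain ⟨z2, e2, n2⟩ := lift_sa q k hk
  have b1 : ‖q h‖ ≤ ‖q x‖ := by
    simp only [h, map_smul, map_add, map_star, norm_smul]
    have := norm_add_le (q x) (star (q x))
    rw [norm_star] at this
    have h2 : ‖(1 / 2 : ℂ)‖ = 1 / 2 := by simp
    rw [h2]; linarith
  have b2 : ‖q k‖ ≤ ‖q x‖ := by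
    simp only [k, map_smul, map_sub, map_star, norm_smul]
    have := norm_sub_le (star (q x)) (q x)
    rw [norm_star] at this
    have h2 : ‖(Complex.I / 2 : ℂ)‖ = 1 / 2 := by simp
    rw [h2]; linarith
  refine ⟨z1 + Complex.I • z2, ?_, ?_⟩
  · conv_rhs => rw [hx]
    simp only [map_add, map_smul, e1, e2]
  · have := norm_add_le z1 (Complex.I • z2)
    rw [norm_smul, Complex.norm_I, one_mul] at this
    linarith

section Gen

variable {B : Type*} [NonUnitalCStarAlgebra B]

/-- The span of a set closed under products and adjoints. -/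
def spanAlg (M : Set B) (hmul : ∀ x ∈ M, ∀ y ∈ M, x * y ∈ M) (hstar : ∀ x ∈ M, star x ∈ M) :
    NonUnitalStarSubalgebra ℂ B where
  carrier := Submodule.span ℂ M
  add_mem' := fun ha hb => Submodule.add_mem _ ha hb
  zero_mem' := Submodule.zero_mem _
  smul_mem' := fun c _ hx => Submodule.smul_mem _ c hx
  mul_mem' := by
    intro a b ha hb
    simp only [SetLike.mem_coe] at ha hb ⊢
    induction ha using Submodule.span_induction with
    | mem x hx =>
      induction hb using Submodule.span_induction with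
      | mem y hy => exact Submodule.subset_span (hmul x hx y hy)
      | zero => simp
      | add y z _ _ h1 h2 => rw [mul_add]; exact Submodule.add_mem _ h1 h2
      | smul c y _ h1 => rw [mul_smul_comm]; exact Submodule.smul_mem _ c h1
    | zero => simp
    | add y z _ _ h1 h2 => rw [add_mul]; exact Submodule.add_mem _ h1 h2
    | smul c y _ h1 => rw [smul_mul_assoc]; exact Submodule.smul_mem _ c h1
  star_mem' := by
    intro a ha
    simp only [SetLike.mem_coe] at ha ⊢
    induction ha using Submodule.span_induction with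
    | mem x hx => exact Submodule.subset_span (hstar x hx)
    | zero => simp
    | add y z _ _ h1 h2 => rw [star_add]; exact Submodule.add_mem _ h1 h2
    | smul c y _ h1 => rw [star_smul]; exact Submodule.smul_mem _ _ h1

/-- The closed span of a set closed under products and adjoints. -/
noncomputable def gen (M : Set B) (hmul : ∀ x ∈ M, ∀ y ∈ M, x * y ∈ M)
    (hstar : ∀ x ∈ M, star x ∈ M) : NonUnitalStarSubalgebra ℂ B :=
  (spanAlg M hmul hstar).topologicalClosure

variable {M : Set B} {hmul : ∀ x ∈ M, ∀ y ∈ M, x * y ∈ M} {hstar : ∀ x ∈ M, star x ∈ M}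

theorem gen_coe : (gen M hmul hstar : Set B) = closure (Submodule.span ℂ M : Set B) := rfl

theorem mem_gen {x : B} : x ∈ gen M hmul hstar ↔ x ∈ closure (Submodule.span ℂ M : Set B) :=
  Iff.rfl

theorem gen_closed : IsClosed (gen M hmul hstar : Set B) := isClosed_closure

theorem subset_gen {x : B} (hx : x ∈ M) : x ∈ gen M hmul hstar :=
  subset_closure (Submodule.subset_span hx)

theorem gen_induction (p : B → Prop) (hc : IsClosed {x | p x}) (h0 : p 0)
    (hadd : ∀ x y, p x → p y → p (x + y)) (hsmul : ∀ (c : ℂ) x, p x → p (c • x))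
    (hM : ∀ x ∈ M, p x) {x : B} (hx : x ∈ gen M hmul hstar) : p x := by
  have : (Submodule.span ℂ M : Set B) ⊆ {x | p x} := by
    intro y hy
    simp only [SetLike.mem_coe] at hy
    induction hy using Submodule.span_induction with
    | mem x hx => exact hM x hx
    | zero => exact h0
    | add y z _ _ h1 h2 => exact hadd _ _ h1 h2
    | smul c y _ h1 => exact hsmul _ _ h1
  exact closure_minimal this hc hx

theorem gen_separable (hM : M.Countable) :
    TopologicalSpace.IsSeparable (gen M hmul hstar : Set B) :=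
  (hM.isSeparable.span (R := ℂ)).closure

end Gen

section Tr

variable {G : Type*} [Group G] [DecidableEq G]
variable {K : Type*} [NormedAddCommGroup K] [InnerProductSpace ℂ K] [CompleteSpace K]

/-- A possibly degenerate unitary representation. -/
structure IsRep (V : G → K →L[ℂ] K) : Prop where
  mul : ∀ g h, V (g * h) = V g * V h
  star : ∀ g, star (V g) = V g⁻¹

omit [DecidableEq G] in
theorem IsRep.hmul {V : G → K →L[ℂ] K} (hV : IsRep V) :
    ∀ x ∈ Set.range V, ∀ y ∈ Set.range V, x * y ∈ Set.range V := by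
  rintro _ ⟨g, rfl⟩ _ ⟨h, rfl⟩
  exact ⟨g * h, hV.mul g h⟩

omit [DecidableEq G] in
theorem IsRep.hstar {V : G → K →L[ℂ] K} (hV : IsRep V) :
    ∀ x ∈ Set.range V, Star.star x ∈ Set.range V := by
  rintro _ ⟨g, rfl⟩
  exact ⟨g⁻¹, (hV.star g).symm⟩

/-- The C*-algebra generated by a representation. -/
noncomputable def IsRep.alg {V : G → K →L[ℂ] K} (hV : IsRep V) :
    NonUnitalStarSubalgebra ℂ (K →L[ℂ] K) := gen (Set.range V) hV.hmul hV.hstar

/-- The vector state of `ζ` is `κ` times the canonical trace. -/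
def IsTr (V : G → K →L[ℂ] K) (ζ : K) (κ : ℂ) : Prop :=
  ∀ g, ⟪ζ, V g ζ⟫_ℂ = if g = 1 then κ else 0

/-- Trace vectors are total. -/
def Tot (V : G → K →L[ℂ] K) : Prop :=
  ∀ T : K →L[ℂ] K, (∀ ζ κ, IsTr V ζ κ → T ζ = 0) → T = 0

theorem tr_eq {V : G → K →L[ℂ] K} (hV : IsRep V) {ζ ζ' : K} {κ : ℂ} (h1 : IsTr V ζ 1)
    (h2 : IsTr V ζ' κ) {a : K →L[ℂ] K} (ha : a ∈ hV.alg) : ⟪ζ', a ζ'⟫_ℂ = κ * ⟪ζ, a ζ⟫_ℂ := by
  refine gen_induction (fun a => ⟪ζ', a ζ'⟫_ℂ = κ * ⟪ζ, a ζ⟫_ℂ) ?_ ?_ ?_ ?_ ?_ ha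
  · exact isClosed_eq (by fun_prop) (by fun_prop)
  · simp
  · intro x y hx hy
    simp only [add_apply, inner_add_right, hx, hy]; ring
  · intro c x hx
    simp only [smul_apply, inner_smul_right, hx]; ring
  · rintro _ ⟨g, rfl⟩
    rw [h1 g, h2 g]
    split_ifs <;> simp

theorem inner_star_mul (a b : K →L[ℂ] K) (ζ η : K) :
    ⟪ζ, (star a * b) η⟫_ℂ = ⟪a ζ, b η⟫_ℂ := by
  rw [mul_apply_eq_comp, ContinuousLinearMap.star_eq_adjoint,
    ContinuousLinearMap.adjoint_inner_right]

theorem faithful {V : G → K →L[ℂ] K} (hV : IsRep V) (hT : Tot V) {ζ : K} (h1 : IsTr V ζ 1)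
    {a : K →L[ℂ] K} (ha : a ∈ hV.alg) (h0 : a ζ = 0) : a = 0 := by
  apply hT
  intro ζ' κ h2
  have := tr_eq hV h1 h2 (mul_mem (star_mem ha) ha)
  rw [inner_star_mul, inner_star_mul, h0, inner_zero_left, mul_zero] at this
  exact inner_self_eq_zero.mp this

theorem tr_comm {V : G → K →L[ℂ] K} (hV : IsRep V) {ζ : K} (h1 : IsTr V ζ 1)
    {a b : K →L[ℂ] K} (ha : a ∈ hV.alg) (hb : b ∈ hV.alg) :
    ⟪ζ, (a * b) ζ⟫_ℂ = ⟪ζ, (b * a) ζ⟫_ℂ := by
  refine gen_induction (fun a => ⟪ζ, (a * b) ζ⟫_ℂ = ⟪ζ, (b * a) ζ⟫_ℂ) ?_ ?_ ?_ ?_ ?_ ha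
  · exact isClosed_eq (by fun_prop) (by fun_prop)
  · simp
  · intro x y hx hy
    simp only [add_mul, mul_add, add_apply, inner_add_right, hx, hy]
  · intro c x hx
    simp only [smul_mul_assoc, mul_smul_comm, smul_apply, inner_smul_right, hx]
  · rintro _ ⟨g, rfl⟩
    refine gen_induction (fun b => ⟪ζ, (V g * b) ζ⟫_ℂ = ⟪ζ, (b * V g) ζ⟫_ℂ) ?_ ?_ ?_ ?_ ?_ hb
    · exact isClosed_eq (by fun_prop) (by fun_prop)
    · simp
    · intro x y hx hy
      simp only [add_mul, mul_add, add_apply, inner_add_right, hx, hy]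
    · intro c x hx
      simp only [smul_mul_assoc, mul_smul_comm, smul_apply, inner_smul_right,
        hx]
    · rintro _ ⟨h, rfl⟩
      rw [← hV.mul, ← hV.mul, h1, h1]
      simp only [mul_eq_one_iff_eq_inv]
      congr 1
      apply propext
      constructor
      · intro e; rw [e]; simp
      · intro e; rw [e]; simp

theorem norm_star_apply {V : G → K →L[ℂ] K} (hV : IsRep V) {ζ : K} (h1 : IsTr V ζ 1)
    {a : K →L[ℂ] K} (ha : a ∈ hV.alg) : ‖(star a) ζ‖ = ‖a ζ‖ := by
  have := tr_comm hV h1 (star_mem ha) ha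
  rw [inner_star_mul] at this
  have h2 : ⟪ζ, (a * star a) ζ⟫_ℂ = ⟪(star a) ζ, (star a) ζ⟫_ℂ := by
    rw [← inner_star_mul, star_star]
  rw [h2, inner_self_eq_norm_sq_to_K, inner_self_eq_norm_sq_to_K] at this
  have h3 : (‖a ζ‖ : ℝ) ^ 2 = ‖(star a) ζ‖ ^ 2 := by exact_mod_cast this
  exact (pow_left_inj₀ (norm_nonneg _) (norm_nonneg _) two_ne_zero).mp h3.symm

end Tr

end Pool.Agent.P.MP_5a22e6_an
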