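import Pool.Agent.P.MP_5a22e6_an.Ops

set_option autoImplicit false

open scoped InnerProductSpace ComplexConjugate ENNReal
open Filter Topology

namespace Pool.Agent.P.MP_5a22e6_an

variable {G : Type} [Group G] [DecidableEq G]

/-- The basis vectors of `ℓ²(G)`. -/
noncomputable def dl (x : G) : L2 G ℂ := lp.single 2 x 1

omit [Group G] in
theorem dl_apply (x y : G) : dl x y = if y = x then 1 else 0 := by
  unfold dl
  split_ifs with h
  · subst h; simp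
  · exact lp.single_apply_ne _ _ _ h

omit [Group G] in
theorem inner_dl (x : G) (f : L2 G ℂ) : ⟪dl x, f⟫_ℂ = f x := by
  rw [dl, lp.inner_single_left]; simp

omit [Group G] in
theorem norm_dl (x : G) : ‖dl x‖ = 1 := by
  rw [dl, lp.norm_single (by simp)]; simp

/-- Matrix units. -/
noncomputable def rk (x y : G) : L2 G ℂ →L[ℂ] L2 G ℂ := InnerProductSpace.rankOne ℂ (dl x) (dl y)

omit [Group G] in
theorem rk_apply (x y : G) (f : L2 G ℂ) : rk x y f = f y • dl x := by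
  rw [rk, InnerProductSpace.rankOne_apply, inner_dl]

omit [Group G] in
theorem star_rk (x y : G) : star (rk x y) = rk y x := by
  rw [rk, rk, ContinuousLinearMap.star_eq_adjoint, InnerProductSpace.adjoint_rankOne]

/-- Left translation followed by a rotation in the plane of `δ₁` and `δ_s`. -/
noncomputable def rot (c z : ℝ) (s : G) : L2 G ℂ →L[ℂ] L2 G ℂ :=
  U s + (z : ℂ) • rk 1 1 + ((c : ℂ) - 1) • rk s 1 + ((c : ℂ) - 1) • rk 1 s⁻¹ - (z : ℂ) • rk s s⁻¹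

theorem star_rot (c z : ℝ) (s : G) : star (rot c z s) = rot c z s⁻¹ := by
  simp only [rot, star_add, star_sub, star_smul, star_rk, star_U, inv_inv, star_one,
    Complex.star_def, Complex.conj_ofReal]
  abel

theorem rot_eq (c z : ℝ) (s : G) (f : L2 G ℂ) :
    rot c z s f = U s f + (z * f 1 + (c - 1) * f s⁻¹ : ℂ) • dl 1
      + ((c - 1) * f 1 - z * f s⁻¹ : ℂ) • dl s := by
  simp only [rot, add_apply, sub_apply, smul_apply, rk_apply]
  module

theorem rot_apply (c z : ℝ) (s : G) (f : L2 G ℂ) (x : G) :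
    rot c z s f x = f (s⁻¹ * x) + (if x = 1 then z * f 1 + (c - 1) * f s⁻¹ else 0)
      + (if x = s then (c - 1) * f 1 - z * f s⁻¹ else 0) := by
  rw [rot_eq]
  simp only [lp.coeFn_add, lp.coeFn_smul, Pi.add_apply, Pi.smul_apply, U_apply, dl_apply,
    smul_eq_mul, mul_ite, mul_one, mul_zero]

theorem rot_inv_mul (c z : ℝ) (h : c ^ 2 + z ^ 2 = 1) (s : G) (hs : s ≠ 1) :
    rot c z s⁻¹ * rot c z s = 1 := by
  refine ContinuousLinearMap.ext fun f => lp.ext (funext fun x => ?_)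
  have hc : (c : ℂ) ^ 2 + (z : ℂ) ^ 2 = 1 := by exact_mod_cast h
  have hs' : s⁻¹ ≠ 1 := inv_ne_one.mpr hs
  rw [mul_apply_eq_comp, rot_apply, inv_inv]
  change _ = f x
  simp only [rot_apply]
  by_cases h1 : x = 1
  · subst h1
    simp only [mul_one, hs, hs.symm, hs'.symm, if_true, if_false, inv_mul_cancel]
    linear_combination (f 1) * hc
  · by_cases h2 : x = s⁻¹
    · subst h2
      simp only [mul_one, hs, hs.symm, hs', if_true, if_false, inv_mul_cancel, mul_inv_cancel]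
      linear_combination (f s⁻¹) * hc
    · have h3 : s * x ≠ 1 := fun h => h2 (eq_inv_of_mul_eq_one_right h)
      have h4 : s * x ≠ s := fun h => h1 (by simpa using h)
      simp [h1, h2, h3, h4]

theorem rot_mem_unitary (c z : ℝ) (h : c ^ 2 + z ^ 2 = 1) (s : G) (hs : s ≠ 1) :
    rot c z s ∈ unitary (L2 G ℂ →L[ℂ] L2 G ℂ) := by
  rw [Unitary.mem_iff, star_rot]
  refine ⟨rot_inv_mul c z h s hs, ?_⟩
  have := rot_inv_mul c z h s⁻¹ (inv_ne_one.mpr hs)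
  rwa [inv_inv] at this

omit [Group G] in
theorem norm_add_dl (v : L2 G ℂ) (x : G) (β : ℂ) :
    ‖v + β • dl x‖ ^ 2 = ‖v‖ ^ 2 - ‖v x‖ ^ 2 + ‖v x + β‖ ^ 2 := by
  have h1 := @norm_add_sq ℂ _ _ _ _ (β • dl x) v
  have h2 := @norm_add_sq ℂ _ _ _ _ β (v x)
  rw [add_comm v, add_comm (v x), h1, h2, norm_smul, norm_dl, inner_smul_left, inner_dl]
  simp [mul_comm]
  ring

omit [DecidableEq G] in
theorem norm_U_apply (s : G) (v : L2 G ℂ) : ‖U s v‖ = ‖v‖ := by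
  apply le_antisymm
  · simpa using (U s : L2 G ℂ →L[ℂ] L2 G ℂ).le_of_opNorm_le (norm_U_le s) v
  · have := (U s⁻¹ : L2 G ℂ →L[ℂ] L2 G ℂ).le_of_opNorm_le (norm_U_le s⁻¹) (U s v)
    rw [← mul_apply_eq_comp, ← U_mul, inv_mul_cancel, U_one] at this
    simpa using this

/-- One step of the uniform estimate. -/
theorem rot_step (c z : ℝ) (hc0 : 0 ≤ c) (hz0 : 0 ≤ z) (hz : z ≤ 1 / 3) (h : c ^ 2 + z ^ 2 = 1)
    (s : G) (hs : s ≠ 1) (u w : L2 G ℂ) (hu : u s⁻¹ = 0) :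
    ‖rot c z s (u + w) - U s w‖ ^ 2 + 2 * ‖(rot c z s (u + w) - U s w) 1‖ ^ 2
      ≤ ‖u‖ ^ 2 + 2 * ‖u 1‖ ^ 2 + 13 * z ^ 2 * (‖w 1‖ ^ 2 + ‖w s⁻¹‖ ^ 2) := by
  set α : ℂ := z * (u 1 + w 1) + (c - 1) * w s⁻¹ with hα
  set β : ℂ := (c - 1) * (u 1 + w 1) - z * w s⁻¹ with hβ
  have e : rot c z s (u + w) - U s w = U s u + α • dl 1 + β • dl s := by
    rw [rot_eq, map_add]
    simp only [lp.coeFn_add, Pi.add_apply, hu, zero_add]
    rw [← hα, ← hβ]
    abel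
  have e1 : (U s u : L2 G ℂ) 1 = 0 := by rw [U_apply]; simpa using hu
  have e2 : (U s u + α • dl 1 : L2 G ℂ) s = u 1 := by
    simp [U_apply, dl_apply, hs]
  have e3 : (U s u + α • dl 1 + β • dl s : L2 G ℂ) 1 = α := by
    simp only [lp.coeFn_add, lp.coeFn_smul, Pi.add_apply, Pi.smul_apply, e1, dl_apply, hs.symm]
    simp
  rw [e, e3, norm_add_dl, norm_add_dl, e1, e2, norm_U_apply]
  simp only [norm_zero, zero_add]
  have hc1 : c ≤ 1 := by nlinarith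
  have hcz : ‖(c : ℂ) - 1‖ ≤ z := by
    have : ((c : ℂ) - 1) = ((c - 1 : ℝ) : ℂ) := by push_cast; ring
    rw [this, Complex.norm_real, Real.norm_eq_abs, abs_le]
    constructor <;> nlinarith
  have hzn : ‖(z : ℂ)‖ = z := by rw [Complex.norm_real, Real.norm_eq_abs, abs_of_nonneg hz0]
  have hcn : ‖(c : ℂ)‖ ≤ 1 := by rw [Complex.norm_real, Real.norm_eq_abs, abs_of_nonneg hc0]; exact hc1
  set t := ‖u 1‖
  set a := ‖w 1‖
  set b := ‖w s⁻¹‖
  have ht : 0 ≤ t := norm_nonneg _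
  have ha : 0 ≤ a := norm_nonneg _
  have hb : 0 ≤ b := norm_nonneg _
  have n1 : ‖α‖ ≤ z * (t + a + b) := by
    calc ‖α‖ ≤ ‖(z : ℂ) * (u 1 + w 1)‖ + ‖((c : ℂ) - 1) * w s⁻¹‖ := norm_add_le _ _
      _ ≤ z * (t + a) + z * b := by
        rw [norm_mul, norm_mul, hzn]
        gcongr
        exact norm_add_le _ _
      _ = _ := by ring
  have n2 : ‖u 1 + β‖ ≤ t + z * (a + b) := by
    have : u 1 + β = c * u 1 + ((c - 1) * w 1 - z * w s⁻¹) := by rw [hβ]; ring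
    rw [this]
    calc _ ≤ ‖(c : ℂ) * u 1‖ + (‖((c : ℂ) - 1) * w 1‖ + ‖(z : ℂ) * w s⁻¹‖) :=
          (norm_add_le _ _).trans (add_le_add le_rfl (norm_sub_le _ _))
      _ ≤ 1 * t + (z * a + z * b) := by
        rw [norm_mul, norm_mul, norm_mul, hzn]
        gcongr
      _ = _ := by ring
  have m1 : ‖α‖ ^ 2 ≤ (z * (t + a + b)) ^ 2 := pow_le_pow_left₀ (norm_nonneg _) n1 2
  have m2 : ‖u 1 + β‖ ^ 2 ≤ (t + z * (a + b)) ^ 2 := pow_le_pow_left₀ (norm_nonneg _) n2 2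
  have k1 : (t + a + b) ^ 2 ≤ 3 * (t ^ 2 + a ^ 2 + b ^ 2) := by
    nlinarith [sq_nonneg (t - a), sq_nonneg (t - b), sq_nonneg (a - b)]
  have k2 : (t + z * (a + b)) ^ 2 ≤ 2 * t ^ 2 + 2 * (z * (a + b)) ^ 2 := by
    nlinarith [sq_nonneg (t - z * (a + b))]
  have k3 : (a + b) ^ 2 ≤ 2 * (a ^ 2 + b ^ 2) := by nlinarith [sq_nonneg (a - b)]
  have hz2 : 0 ≤ z ^ 2 := sq_nonneg z
  have k4 : z ^ 2 * (t + a + b) ^ 2 ≤ z ^ 2 * (3 * (t ^ 2 + a ^ 2 + b ^ 2)) :=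
    mul_le_mul_of_nonneg_left k1 hz2
  have k5 : z ^ 2 * (a + b) ^ 2 ≤ z ^ 2 * (2 * (a ^ 2 + b ^ 2)) :=
    mul_le_mul_of_nonneg_left k3 hz2
  have k6 : z ^ 2 ≤ 1 / 9 := by nlinarith
  have k7 : z ^ 2 * t ^ 2 ≤ 1 / 9 * t ^ 2 := mul_le_mul_of_nonneg_right k6 (sq_nonneg t)
  rw [mul_pow] at m1 k2
  nlinarith

end Pool.Agent.P.MP_5a22e6_an
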