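import Pool.Agent.P.MP_5a22e6_an.Abstract
import Pool.Agent.P.MP_5a22e6_an.Amp
import Pool.Agent.P.MP_5a22e6_an.Rot

set_option autoImplicit false

open scoped InnerProductSpace ComplexConjugate ENNReal
open Filter Topology

namespace Pool.Agent.P.MP_5a22e6_an

theorem countable_closure {M : Type} [Monoid M] {T : Set M} (hT : T.Countable) :
    (Submonoid.closure T : Set M).Countable := by
  have := hT.to_subtype
  refine (Set.countable_range (fun l : List T => (l.map Subtype.val).prod)).mono ?_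
  intro x hx
  induction hx using Submonoid.closure_induction with
  | mem y hy => exact ⟨[⟨y, hy⟩], by simp⟩
  | one => exact ⟨[], by simp⟩
  | mul y z _ _ h1 h2 =>
    obtain ⟨l1, rfl⟩ := h1
    obtain ⟨l2, rfl⟩ := h2
    exact ⟨l1 ++ l2, by simp⟩

section Rep

variable {G : Type} [Group G] {H : Type} [NormedAddCommGroup H] [InnerProductSpace ℂ H]
  [CompleteSpace H]

theorem IsRep.norm_le {π : G → H →L[ℂ] H} (h : IsRep π) (h1 : π 1 = 1) (g : G) : ‖π g‖ ≤ 1 := by
  have h2 := CStarRing.norm_star_mul_self (x := π g)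
  rw [h.star, ← h.mul, inv_mul_cancel, h1] at h2
  have h3 : ‖(1 : H →L[ℂ] H)‖ ≤ 1 := ContinuousLinearMap.norm_id_le
  nlinarith [norm_nonneg (π g)]

variable {X : Type} [MulAction G X]

/-- The tensor product of the permutation representation with `π`. -/
noncomputable def tw (X : Type) [MulAction G X] (π : G → H →L[ℂ] H) (g : G) :
    L2 X H →L[ℂ] L2 X H := U g * cst (π g)

omit [CompleteSpace H] in
theorem tw_apply (π : G → H →L[ℂ] H) (g : G) (f : L2 X H) (x : X) :
    tw X π g f x = π g (f (g⁻¹ • x)) := rfl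

omit [CompleteSpace H] in
theorem UC_mul (g h : G) (a b : H →L[ℂ] H) :
    (U g * cst a * (U h * cst b) : L2 X H →L[ℂ] L2 X H) = U (g * h) * cst (a * b) := by
  rw [U_mul, cst_mul, mul_assoc, mul_assoc, ← mul_assoc (cst a), ← U_cst, mul_assoc]

theorem isRep_tw {π : G → H →L[ℂ] H} (h : IsRep π) : IsRep (tw X π) where
  mul g g' := by rw [tw, tw, tw, UC_mul, h.mul]
  star g := by rw [tw, tw, star_mul, star_cst, star_U, h.star, U_cst]

omit [CompleteSpace H] in
theorem UC_single [DecidableEq X] (g : G) (b : H →L[ℂ] H) (x : X) (v : H) :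
    (U g * cst b : L2 X H →L[ℂ] L2 X H) (lp.single 2 x v) = lp.single 2 (g • x) (b v) := by
  rw [mul_apply_eq_comp, cst_single, U_single]

end Rep

section Main

variable {G : Type} [Group G] [DecidableEq G] {H : Type} [NormedAddCommGroup H]
  [InnerProductSpace ℂ H] [CompleteSpace H] {Z : Type} [MulAction G Z] [DecidableEq Z]

/-- The projection onto the free orbit. -/
noncomputable def proj (G Z H : Type) [NormedAddCommGroup H] [InnerProductSpace ℂ H] :
    L2 (G ⊕ Z) H →L[ℂ] L2 (G ⊕ Z) H := ind (Set.range Sum.inl)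

omit [Group G] [DecidableEq G] [CompleteSpace H] [MulAction G Z] [DecidableEq Z] in
theorem proj_inl (f : L2 (G ⊕ Z) H) (y : G) : proj G Z H f (Sum.inl y) = f (Sum.inl y) :=
  ind_apply_of_mem _ ⟨y, rfl⟩

omit [Group G] [DecidableEq G] [CompleteSpace H] [MulAction G Z] [DecidableEq Z] in
theorem proj_inr (f : L2 (G ⊕ Z) H) (y : Z) : proj G Z H f (Sum.inr y) = 0 :=
  ind_apply_of_notMem _ (by simp)

omit [DecidableEq G] [CompleteSpace H] [DecidableEq Z] in
theorem proj_UC (g : G) (b : H →L[ℂ] H) :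
    proj G Z H * (U g * cst b) = U g * cst b * proj G Z H := by
  rw [proj, ← mul_assoc, ind_U g _ (Set.range Sum.inl), mul_assoc, ind_cst, mul_assoc]
  rintro (y | y) <;> simp

omit [CompleteSpace H] in
theorem isTr_inl {π : G → H →L[ℂ] H} (h1 : π 1 = 1) (y : G) (v : H) :
    IsTr (tw (G ⊕ Z) π) (lp.single 2 (Sum.inl y) v) ⟪v, v⟫_ℂ := by
  intro g
  rw [tw, UC_single, inner_single_single]
  by_cases hg : g = 1
  · subst hg; simp [h1]
  · rw [if_neg hg, if_neg]
    simpa [eq_comm] using hg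

omit [CompleteSpace H] in
theorem isTr_cut_inl {π : G → H →L[ℂ] H} (h1 : π 1 = 1) (y : G) (v : H) :
    IsTr (fun g => proj G Z H * tw (G ⊕ Z) π g) (lp.single 2 (Sum.inl y) v) ⟪v, v⟫_ℂ := by
  intro g
  rw [← isTr_inl (Z := Z) h1 y v g]
  simp only [tw]
  rw [proj_UC, mul_apply_eq_comp, proj,
    ind_single_of_mem (show Sum.inl y ∈ Set.range Sum.inl from ⟨y, rfl⟩)]

omit [CompleteSpace H] in
theorem tot_cut {π : G → H →L[ℂ] H} (h1 : π 1 = 1) :
    Tot (fun g => proj G Z H * tw (G ⊕ Z) π g) := by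
  intro T hT
  apply eq_zero_of_single
  rintro (y | y) v
  · exact hT _ _ (isTr_cut_inl h1 y v)
  · refine hT _ 0 fun g => ?_
    simp only [tw]
    rw [proj_UC, mul_apply_eq_comp, proj, ind_single_of_notMem (by simp)]
    simp

theorem tot_reg : Tot (tw (G ⊕ Z) (U : G → L2 G ℂ →L[ℂ] L2 G ℂ)) := by
  intro T hT
  apply eq_zero_of_single
  intro x v
  have : T.comp (lp.singleContinuousLinearMap ℂ (fun _ : G ⊕ Z => L2 G ℂ) 2 x) = 0 := by
    apply eq_zero_of_single
    intro h c
    refine hT _ ⟪c, c⟫_ℂ fun g => ?_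
    change ⟪lp.single 2 x _, tw (G ⊕ Z) (U : G → L2 G ℂ →L[ℂ] L2 G ℂ) g (lp.single 2 x _)⟫_ℂ = _
    rw [tw, UC_single, inner_single_single, U_single, inner_single_single]
    by_cases hg : g = 1
    · subst hg; simp
    · simp [hg]
  exact congrArg (fun A : L2 G ℂ →L[ℂ] L2 (G ⊕ Z) (L2 G ℂ) => A v) this

/-- The entries of the absorbing unitary. -/
noncomputable def fellEntry (π π' : G → H →L[ℂ] H) : G ⊕ Z → H →L[ℂ] H
  | Sum.inl y => π' y * π y⁻¹
  | Sum.inr _ => 1

omit [DecidableEq G] [MulAction G Z] [DecidableEq Z] in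
theorem norm_fellEntry {π π' : G → H →L[ℂ] H} (h : IsRep π) (h1 : π 1 = 1) (h' : IsRep π')
    (h1' : π' 1 = 1) (x : G ⊕ Z) : ‖fellEntry π π' x‖ ≤ 1 := by
  rcases x with y | y
  · exact (norm_mul_le _ _).trans (mul_le_one₀ (h'.norm_le h1' y) (norm_nonneg _) (h.norm_le h1 _))
  · exact ContinuousLinearMap.norm_id_le

omit [DecidableEq G] [DecidableEq Z] in
theorem exists_fell {π π' : G → H →L[ℂ] H} (h : IsRep π) (h1 : π 1 = 1) (h' : IsRep π')
    (h1' : π' 1 = 1) (ε : ℝ) (hε : 0 ≤ ε) (hc : ∀ g, ‖π' g - π g‖ ≤ ε) :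
    ∃ W : L2 (G ⊕ Z) H →L[ℂ] L2 (G ⊕ Z) H, star W * W = 1 ∧ ‖W - 1‖ ≤ ε ∧
      ∀ g, W * (proj G Z H * tw (G ⊕ Z) π g) * star W = proj G Z H * tw (G ⊕ Z) π' g := by
  refine ⟨diag (fellEntry π π') 1 zero_le_one (norm_fellEntry h h1 h' h1'), ?_, ?_, ?_⟩
  · rw [star_diag]
    refine ContinuousLinearMap.ext fun f => lp.ext (funext fun x => ?_)
    rw [mul_apply_eq_comp, diag_apply, diag_apply, ← mul_apply_eq_comp]
    rcases x with y | y
    · simp only [fellEntry, star_mul, h.star, h'.star, inv_inv]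
      rw [mul_assoc, ← mul_assoc (π' y⁻¹), ← h'.mul, inv_mul_cancel, h1', one_mul, ← h.mul,
        mul_inv_cancel, h1]
      rfl
    · simp [fellEntry]
  · have hb : ∀ x : G ⊕ Z, ‖fellEntry π π' x - 1‖ ≤ ε := by
      rintro (y | y)
      · have : fellEntry (Z := Z) π π' (Sum.inl y) - 1 = (π' y - π y) * π y⁻¹ := by
          rw [sub_mul, ← h.mul, mul_inv_cancel, h1]; rfl
        rw [this]
        exact (norm_mul_le _ _).trans
          ((mul_le_mul (hc y) (h.norm_le h1 _) (norm_nonneg _) hε).trans (mul_one _).le)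
      · simpa [fellEntry] using hε
    have : diag (fellEntry π π') 1 zero_le_one (norm_fellEntry h h1 h' h1') - 1
        = diag (fun x : G ⊕ Z => fellEntry π π' x - 1) ε hε hb := by
      refine ContinuousLinearMap.ext fun f => lp.ext (funext fun x => rfl)
    rw [this]
    exact norm_diag_le _ _ _ _
  · intro g
    rw [star_diag]
    refine ContinuousLinearMap.ext fun f => lp.ext (funext fun x => ?_)
    simp only [mul_apply_eq_comp, diag_apply]
    rcases x with y | y
    · rw [proj_inl, proj_inl, tw_apply, tw_apply, diag_apply, Sum.smul_inl]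
      simp only [fellEntry, star_mul, h.star, h'.star, inv_inv, ← mul_apply_eq_comp, smul_eq_mul]
      congr 1
      calc π' y * π y⁻¹ * (π g * (π (g⁻¹ * y) * π' (g⁻¹ * y)⁻¹))
          = π' y * (π y⁻¹ * π g * π (g⁻¹ * y)) * π' (g⁻¹ * y)⁻¹ := by simp only [mul_assoc]
        _ = π' g := by
          rw [← h.mul, ← h.mul, show y⁻¹ * g * (g⁻¹ * y) = 1 by group, h1, mul_one, ← h'.mul]
          congr 1
          group
    · rw [proj_inr, proj_inr, map_zero]

omit [DecidableEq G] [DecidableEq Z] [CompleteSpace H] in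
theorem cut_dec (π : G → H →L[ℂ] H) (s : G) (A A' : Set G) (hA : ∀ x, s * x ∈ A ↔ x ∉ A') :
    proj G Z H * tw (G ⊕ Z) π s = ind (Sum.inl '' A) * (proj G Z H * tw (G ⊕ Z) π s)
      + proj G Z H * tw (G ⊕ Z) π s * ind (Sum.inl '' A') := by
  refine ContinuousLinearMap.ext fun f => lp.ext (funext fun x => ?_)
  rw [add_apply, lp.coeFn_add, Pi.add_apply]
  simp only [mul_apply_eq_comp]
  rcases x with y | y
  · have h := hA (s⁻¹ * y)
    rw [mul_inv_cancel_left] at h
    by_cases hy : y ∈ A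
    · rw [ind_apply_of_mem _ (Set.mem_image_of_mem _ hy), proj_inl (tw _ π s (ind _ f)), tw_apply,
        Sum.smul_inl, ind_apply_of_notMem _ (by simpa using h.mp hy)]
      simp
    · rw [ind_apply_of_notMem _ (by simpa using hy), proj_inl, proj_inl, tw_apply, tw_apply,
        Sum.smul_inl, ind_apply_of_mem _ (Set.mem_image_of_mem _ (by simpa [hy] using h))]
      simp
  · rw [ind_apply_of_notMem _ (by simp), proj_inr, proj_inr, add_zero]

end Main

end Pool.Agent.P.MP_5a22e6_an
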