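import Pool.Agent.P.MP_5a22e6_an.General

set_option autoImplicit false

open scoped InnerProductSpace ComplexConjugate ENNReal
open Filter Topology

namespace Pool.Agent.P.MP_5a22e6_an

/-- Square summable families. -/
abbrev L2 (X : Type) (H : Type) [NormedAddCommGroup H] := lp (fun _ : X => H) 2

variable {X : Type} {H : Type} [NormedAddCommGroup H]

theorem hasSum_sq (f : L2 X H) : HasSum (fun x => ‖f x‖ ^ 2) (‖f‖ ^ 2) := by
  have := lp.hasSum_norm (p := 2) (by simp) f
  simpa using this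

theorem mem_comp (σ : X ≃ X) (f : L2 X H) : Memℓp (fun x => f (σ x)) 2 := by
  apply memℓp_gen
  have := (σ.summable_iff (f := fun x => ‖f x‖ ^ 2)).mpr (hasSum_sq f).summable
  simpa [Function.comp_def] using this

variable [InnerProductSpace ℂ H]

/-- The operator induced by a permutation of the index set. -/
noncomputable def perm (σ : X ≃ X) : L2 X H →L[ℂ] L2 X H :=
  LinearMap.mkContinuous
    { toFun := fun f => ⟨fun x => f (σ.symm x), mem_comp σ.symm f⟩
      map_add' := fun _ _ => by ext; simp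
      map_smul' := fun _ _ => by ext; simp } 1
    (fun f => by
      rw [one_mul]
      have h1 := hasSum_sq (⟨fun x => f (σ.symm x), mem_comp σ.symm f⟩ : L2 X H)
      have h2 := (σ.symm.hasSum_iff (f := fun x => ‖f x‖ ^ 2)).mpr (hasSum_sq f)
      have h3 := h1.unique h2
      exact ((pow_left_inj₀ (norm_nonneg _) (norm_nonneg _) two_ne_zero).mp h3).le)

theorem perm_apply (σ : X ≃ X) (f : L2 X H) (x : X) : perm σ f x = f (σ.symm x) := rfl

theorem norm_perm_le (σ : X ≃ X) : ‖(perm σ : L2 X H →L[ℂ] L2 X H)‖ ≤ 1 :=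
  LinearMap.mkContinuous_norm_le _ zero_le_one _

/-- A diagonal operator. -/
noncomputable def diag (b : X → H →L[ℂ] H) (C : ℝ) (hC : 0 ≤ C) (hb : ∀ x, ‖b x‖ ≤ C) :
    L2 X H →L[ℂ] L2 X H := lp.mapCLM 2 b hC hb

theorem diag_apply (b : X → H →L[ℂ] H) (C : ℝ) (hC : 0 ≤ C) (hb : ∀ x, ‖b x‖ ≤ C) (f : L2 X H)
    (x : X) : diag b C hC hb f x = b x (f x) := rfl

theorem norm_diag_le (b : X → H →L[ℂ] H) (C : ℝ) (hC : 0 ≤ C) (hb : ∀ x, ‖b x‖ ≤ C) :
    ‖diag b C hC hb‖ ≤ C := lp.norm_mapCLM_le 2 b hC hb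

/-- The constant diagonal operator. -/
noncomputable def cst (b : H →L[ℂ] H) : L2 X H →L[ℂ] L2 X H :=
  diag (fun _ => b) ‖b‖ (norm_nonneg _) (fun _ => le_rfl)

theorem cst_apply (b : H →L[ℂ] H) (f : L2 X H) (x : X) : cst b f x = b (f x) := rfl

theorem norm_cst_le (b : H →L[ℂ] H) : ‖(cst b : L2 X H →L[ℂ] L2 X H)‖ ≤ ‖b‖ :=
  norm_diag_le _ _ _ _

theorem cst_mul (a b : H →L[ℂ] H) : (cst (a * b) : L2 X H →L[ℂ] L2 X H) = cst a * cst b := by
  refine ContinuousLinearMap.ext fun f => lp.ext (funext fun x => rfl)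

theorem cst_one : (cst 1 : L2 X H →L[ℂ] L2 X H) = 1 := by
  refine ContinuousLinearMap.ext fun f => lp.ext (funext fun x => rfl)

theorem cst_zero : (cst 0 : L2 X H →L[ℂ] L2 X H) = 0 := by
  refine ContinuousLinearMap.ext fun f => lp.ext (funext fun x => rfl)

open Classical in
/-- Multiplication by an indicator function. -/
noncomputable def ind (A : Set X) : L2 X H →L[ℂ] L2 X H :=
  diag (fun x => if x ∈ A then 1 else 0) 1 zero_le_one (fun x => by
    split_ifs
    · exact ContinuousLinearMap.norm_id_le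
    · simp)

theorem ind_apply_of_mem {A : Set X} (f : L2 X H) {x : X} (hx : x ∈ A) : ind A f x = f x := by
  simp [ind, diag_apply, hx]

theorem ind_apply_of_notMem {A : Set X} (f : L2 X H) {x : X} (hx : x ∉ A) : ind A f x = 0 := by
  simp [ind, diag_apply, hx]

theorem ind_mul (A B : Set X) : (ind A * ind B : L2 X H →L[ℂ] L2 X H) = ind (A ∩ B) := by
  refine ContinuousLinearMap.ext fun f => lp.ext (funext fun x => ?_)
  rw [mul_apply_eq_comp]
  by_cases hA : x ∈ A
  · rw [ind_apply_of_mem _ hA]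
    by_cases hB : x ∈ B
    · rw [ind_apply_of_mem _ hB, ind_apply_of_mem _ (show x ∈ A ∩ B from ⟨hA, hB⟩)]
    · rw [ind_apply_of_notMem _ hB, ind_apply_of_notMem _ (fun h : x ∈ A ∩ B => hB h.2)]
  · rw [ind_apply_of_notMem _ hA, ind_apply_of_notMem _ (fun h : x ∈ A ∩ B => hA h.1)]

theorem ind_empty : (ind ∅ : L2 X H →L[ℂ] L2 X H) = 0 := by
  refine ContinuousLinearMap.ext fun f => lp.ext (funext fun x => ?_)
  rw [ind_apply_of_notMem _ (Set.notMem_empty x)]
  rfl

theorem ind_cst (A : Set X) (b : H →L[ℂ] H) :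
    (ind A * cst b : L2 X H →L[ℂ] L2 X H) = cst b * ind A := by
  refine ContinuousLinearMap.ext fun f => lp.ext (funext fun x => ?_)
  rw [mul_apply_eq_comp, mul_apply_eq_comp, cst_apply]
  by_cases hA : x ∈ A
  · rw [ind_apply_of_mem _ hA, ind_apply_of_mem _ hA, cst_apply]
  · rw [ind_apply_of_notMem _ hA, ind_apply_of_notMem _ hA, map_zero]

theorem sum_ind_le {S : Type} [Fintype S] (A : S → Set X)
    (hA : ∀ s t x, x ∈ A s → x ∈ A t → s = t) (v : L2 X H) :
    ∑ s, ‖ind (A s) v‖ ^ 2 ≤ ‖v‖ ^ 2 := by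
  have h1 := hasSum_sum (s := Finset.univ) (fun s _ => hasSum_sq (ind (A s) v))
  refine hasSum_le (fun x => ?_) h1 (hasSum_sq v)
  by_cases hx : ∃ s, x ∈ A s
  · obtain ⟨s, hs⟩ := hx
    rw [Finset.sum_eq_single s]
    · rw [ind_apply_of_mem _ hs]
    · intro t _ ht
      rw [ind_apply_of_notMem _ (fun h => ht (hA t s x h hs))]
      simp
    · simp
  · rw [Finset.sum_eq_zero]
    · positivity
    · intro s _
      rw [ind_apply_of_notMem _ (fun h => hx ⟨s, h⟩)]
      simp

section Single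

variable [DecidableEq X]

theorem diag_single (b : X → H →L[ℂ] H) (C : ℝ) (hC : 0 ≤ C) (hb : ∀ x, ‖b x‖ ≤ C) (x : X)
    (v : H) : diag b C hC hb (lp.single 2 x v) = lp.single 2 x (b x v) := by
  refine lp.ext (funext fun y => ?_)
  rw [diag_apply]
  by_cases h : y = x
  · subst h; simp
  · rw [lp.single_apply_ne _ _ _ h, lp.single_apply_ne _ _ _ h, map_zero]

theorem cst_single (b : H →L[ℂ] H) (x : X) (v : H) :
    cst b (lp.single 2 x v : L2 X H) = lp.single 2 x (b v) := diag_single _ _ _ _ _ _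

theorem ind_single_of_mem {A : Set X} {x : X} (hx : x ∈ A) (v : H) :
    ind A (lp.single 2 x v : L2 X H) = lp.single 2 x v := by
  rw [ind, diag_single]; simp [hx]

theorem ind_single_of_notMem {A : Set X} {x : X} (hx : x ∉ A) (v : H) :
    ind A (lp.single 2 x v : L2 X H) = 0 := by
  rw [ind, diag_single]; simp [hx]

theorem inner_single_single (x y : X) (v w : H) :
    ⟪(lp.single 2 x v : L2 X H), lp.single 2 y w⟫_ℂ = if x = y then ⟪v, w⟫_ℂ else 0 := by
  rw [lp.inner_single_left]
  split_ifs with h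
  · subst h; simp
  · rw [lp.single_apply_ne _ _ _ h, inner_zero_right]

theorem eq_zero_of_single {K : Type} [NormedAddCommGroup K] [NormedSpace ℂ K]
    (T : L2 X H →L[ℂ] K) (h : ∀ x v, T (lp.single 2 x v) = 0) : T = 0 := by
  apply lp.ext_continuousLinearMap (by simp)
  intro x
  ext v
  simp [h]

end Single

section Star

variable [CompleteSpace H]

theorem star_diag (b : X → H →L[ℂ] H) (C : ℝ) (hC : 0 ≤ C) (hb : ∀ x, ‖b x‖ ≤ C) :
    star (diag b C hC hb) = diag (fun x => star (b x)) C hC (fun x => by simpa using hb x) := by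
  symm
  rw [ContinuousLinearMap.star_eq_adjoint, ContinuousLinearMap.eq_adjoint_iff]
  intro f g
  rw [lp.inner_eq_tsum, lp.inner_eq_tsum]
  refine tsum_congr fun x => ?_
  rw [diag_apply, diag_apply, ContinuousLinearMap.star_eq_adjoint,
    ContinuousLinearMap.adjoint_inner_left]

theorem star_cst (b : H →L[ℂ] H) : star (cst b : L2 X H →L[ℂ] L2 X H) = cst (star b) := by
  rw [cst, star_diag]
  refine ContinuousLinearMap.ext fun f => lp.ext (funext fun x => rfl)

theorem star_ind (A : Set X) : star (ind A : L2 X H →L[ℂ] L2 X H) = ind A := by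
  rw [ind, star_diag]
  refine ContinuousLinearMap.ext fun f => lp.ext (funext fun x => ?_)
  rw [diag_apply, diag_apply]
  split_ifs <;> simp

theorem star_perm (σ : X ≃ X) : star (perm σ : L2 X H →L[ℂ] L2 X H) = perm σ.symm := by
  symm
  rw [ContinuousLinearMap.star_eq_adjoint, ContinuousLinearMap.eq_adjoint_iff]
  intro f g
  rw [lp.inner_eq_tsum, lp.inner_eq_tsum, ← σ.symm.tsum_eq]
  refine tsum_congr fun x => ?_
  simp [perm_apply]

end Star

section Action

variable {G : Type} [Group G] [MulAction G X]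

/-- The permutation representation with multiplicity space `H`. -/
noncomputable def U (g : G) : L2 X H →L[ℂ] L2 X H := perm (MulAction.toPerm g)

theorem U_apply (g : G) (f : L2 X H) (x : X) : U g f x = f (g⁻¹ • x) := rfl

theorem norm_U_le (g : G) : ‖(U g : L2 X H →L[ℂ] L2 X H)‖ ≤ 1 := norm_perm_le _

theorem U_mul (g h : G) : (U (g * h) : L2 X H →L[ℂ] L2 X H) = U g * U h := by
  refine ContinuousLinearMap.ext fun f => lp.ext (funext fun x => ?_)
  rw [mul_apply_eq_comp, U_apply, U_apply, U_apply, mul_inv_rev, mul_smul]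

theorem U_one : (U (1 : G) : L2 X H →L[ℂ] L2 X H) = 1 := by
  refine ContinuousLinearMap.ext fun f => lp.ext (funext fun x => ?_)
  rw [U_apply, inv_one, one_smul]
  rfl

theorem star_U [CompleteSpace H] (g : G) : star (U g : L2 X H →L[ℂ] L2 X H) = U g⁻¹ := by
  rw [U, star_perm]
  refine ContinuousLinearMap.ext fun f => lp.ext (funext fun x => ?_)
  rw [U_apply, perm_apply, inv_inv]
  rfl

theorem U_cst (g : G) (b : H →L[ℂ] H) : (U g * cst b : L2 X H →L[ℂ] L2 X H) = cst b * U g := by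
  refine ContinuousLinearMap.ext fun f => lp.ext (funext fun x => rfl)

theorem ind_U (g : G) (A B : Set X) (h : ∀ x, g • x ∈ A ↔ x ∈ B) :
    (ind A * U g : L2 X H →L[ℂ] L2 X H) = U g * ind B := by
  refine ContinuousLinearMap.ext fun f => lp.ext (funext fun x => ?_)
  rw [mul_apply_eq_comp, mul_apply_eq_comp, U_apply]
  have := h (g⁻¹ • x)
  rw [smul_inv_smul] at this
  by_cases hA : x ∈ A
  · rw [ind_apply_of_mem _ hA, ind_apply_of_mem _ (this.mp hA), U_apply]
  · rw [ind_apply_of_notMem _ hA, ind_apply_of_notMem _ (fun hB => hA (this.mpr hB))]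

theorem U_single [DecidableEq X] (g : G) (x : X) (v : H) :
    U g (lp.single 2 x v : L2 X H) = lp.single 2 (g • x) v := by
  refine lp.ext (funext fun y => ?_)
  rw [U_apply]
  by_cases h : y = g • x
  · subst h; simp
  · rw [lp.single_apply_ne _ _ _ h, lp.single_apply_ne]
    intro h'
    apply h
    rw [← h', smul_inv_smul]

theorem isRep_U [CompleteSpace H] : IsRep (U : G → L2 X H →L[ℂ] L2 X H) := ⟨U_mul, star_U⟩

end Action

theorem ind_add_compl (A : Set X) : (ind A + ind Aᶜ : L2 X H →L[ℂ] L2 X H) = 1 := by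
  refine ContinuousLinearMap.ext fun f => lp.ext (funext fun x => ?_)
  rw [add_apply, lp.coeFn_add, Pi.add_apply]
  by_cases hA : x ∈ A
  · rw [ind_apply_of_mem _ hA, ind_apply_of_notMem _ (show x ∉ Aᶜ from fun h => h hA), add_zero]
    rfl
  · rw [ind_apply_of_notMem _ hA, ind_apply_of_mem _ (show x ∈ Aᶜ from hA), zero_add]
    rfl

end Pool.Agent.P.MP_5a22e6_an
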